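import Pool.Agent.Lib.MP_42de19_nt.QT.Fam

set_option autoImplicit false

/-! From ternary families to families of forms in any number of variables. -/

namespace Pool.Agent.Lib.MP42.QT

open Topology Filter Set
open Pool.Agent.Lib.MP42.CubicHyp (castV ratV dense_ratV RatB)
open Pool.Agent.Lib.MP42.QB (bl castM bl_add_left bl_add_right bl_smul_left bl_smul_right bl_comm
  castM_symm bl_cast)

/-- an isotropic vector of a good ternary form is the vertex of a tangent plane on which the form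
is not zero -/
theorem exists_tangent {q : Bil 3} (hq : ∀ u v, q u v = q v u) (h : ∀ z, z ≠ 0 → q z ≠ 0)
    {c : Fin 3 → ℝ} (hc0 : c ≠ 0) (hc : q c c = 0) : ∃ z, q c z = 0 ∧ q z z ≠ 0 := by
  by_contra hcon
  push Not at hcon
  obtain ⟨e, he⟩ : ∃ e, q c e ≠ 0 := by
    by_contra h1
    push Not at h1
    exact h c hc0 (LinearMap.ext fun w => by rw [h1, LinearMap.zero_apply])
  have hW : LinearMap.ker (q c) ≤ Submodule.span ℝ {c} := by
    intro z hz
    have hz' : q c z = 0 := hz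
    have h1 : ∀ y, q c y = 0 → q z y = 0 := by
      intro y hy
      have h2 := hcon (z + y) (by rw [map_add, hz', hy, add_zero])
      have h3 := hcon z hz'
      have h4 := hcon y hy
      simp only [map_add, LinearMap.add_apply] at h2
      rw [hq y z] at h2
      linarith
    have h2 : q (z - (q z e / q c e) • c) = 0 := by
      refine LinearMap.ext fun x => ?_
      have h3 := h1 (x - (q c x / q c e) • e) (by
        rw [map_sub, map_smul, smul_eq_mul, div_mul_cancel₀ _ he, sub_self])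
      rw [map_sub, map_smul, smul_eq_mul] at h3
      rw [map_sub, map_smul, LinearMap.sub_apply, LinearMap.smul_apply, smul_eq_mul,
        LinearMap.zero_apply]
      field_simp at h3 ⊢
      linarith
    have h3 : z - (q z e / q c e) • c = 0 := by
      by_contra h4
      exact h _ h4 h2
    rw [Submodule.mem_span_singleton]
    exact ⟨q z e / q c e, (sub_eq_zero.mp h3).symm⟩
  have h1 := Submodule.finrank_mono hW
  have h2 := LinearMap.finrank_range_add_finrank_ker (q c)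
  rw [Module.finrank_fin_fun] at h2
  have h3 : Module.finrank ℝ (LinearMap.range (q c)) ≤ 1 := by
    have := Submodule.finrank_le (LinearMap.range (q c))
    rwa [Module.finrank_self] at this
  have h4 : Module.finrank ℝ (Submodule.span ℝ {c} : Submodule ℝ (Fin 3 → ℝ)) ≤ 1 := by
    have := finrank_span_le_card (R := ℝ) ({c} : Set (Fin 3 → ℝ))
    simpa using this
  omega

section gram

variable {N k : ℕ}

/-- linear combination of a frame -/
def comb (L : Fin 3 → Fin N → ℝ) (c : Fin 3 → ℝ) : Fin N → ℝ := ∑ i, c i • L i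

/-- Gram matrix -/
noncomputable def gram (q : Bil N) (L : Fin 3 → Fin N → ℝ) : Matrix (Fin 3) (Fin 3) ℝ :=
  Matrix.of fun i j => q (L i) (L j)

theorem comb_apply_left (q : Bil N) (L : Fin 3 → Fin N → ℝ) (c : Fin 3 → ℝ) (w : Fin N → ℝ) :
    q (comb L c) w = ∑ i, c i * q (L i) w := by
  simp only [comb, map_sum, LinearMap.sum_apply, map_smul, LinearMap.smul_apply, smul_eq_mul]

theorem comb_apply (q : Bil N) (L : Fin 3 → Fin N → ℝ) (c d : Fin 3 → ℝ) :
    q (comb L c) (comb L d) = ∑ i, ∑ j, q (L i) (L j) * c i * d j := by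
  rw [comb_apply_left]
  refine Finset.sum_congr rfl fun i _ => ?_
  simp only [comb, map_sum, map_smul, smul_eq_mul, Finset.mul_sum]
  refine Finset.sum_congr rfl fun j _ => ?_
  ring

/-- the Gram matrix of a family of matrices of polynomials and a rational frame -/
noncomputable def gramPoly (M : Matrix (Fin N) (Fin N) (MvPolynomial (Fin k) ℚ))
    (L : Fin 3 → Fin N → ℚ) : Matrix (Fin 3) (Fin 3) (MvPolynomial (Fin k) ℚ) :=
  Matrix.of fun i j => ∑ a, ∑ b, M a b * MvPolynomial.C (L i a) * MvPolynomial.C (L j b)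

theorem gramPoly_symm {M : Matrix (Fin N) (Fin N) (MvPolynomial (Fin k) ℚ)} (hM : M.IsSymm)
    (L : Fin 3 → Fin N → ℚ) : (gramPoly M L).IsSymm := by
  refine Matrix.IsSymm.ext fun i j => ?_
  simp only [gramPoly, Matrix.of_apply]
  rw [Finset.sum_comm]
  refine Finset.sum_congr rfl fun a _ => Finset.sum_congr rfl fun b _ => ?_
  rw [hM.apply a b]
  ring

theorem gramPoly_deg {M : Matrix (Fin N) (Fin N) (MvPolynomial (Fin k) ℚ)} {d : ℕ}
    (hdeg : ∀ i j l, (M i j).degreeOf l ≤ d) (L : Fin 3 → Fin N → ℚ) (i j : Fin 3) (l : Fin k) :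
    ((gramPoly M L) i j).degreeOf l ≤ d := by
  simp only [gramPoly, Matrix.of_apply]
  refine (MvPolynomial.degreeOf_sum_le _ _ _).trans (Finset.sup_le fun a _ => ?_)
  refine (MvPolynomial.degreeOf_sum_le _ _ _).trans (Finset.sup_le fun b _ => ?_)
  refine (MvPolynomial.degreeOf_mul_le _ _ _).trans ?_
  have h1 := MvPolynomial.degreeOf_mul_le l (M a b) (MvPolynomial.C (L i a))
  rw [MvPolynomial.degreeOf_C, add_zero] at h1 ⊢
  exact h1.trans (hdeg a b l)

theorem fam_gramPoly (M : Matrix (Fin N) (Fin N) (MvPolynomial (Fin k) ℚ))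
    (L : Fin 3 → Fin N → ℚ) (t : Fin k → ℝ) (c d : Fin 3 → ℝ) :
    fam (gramPoly M L) t c d = fam M t (comb (fun i => castV (L i)) c)
      (comb (fun i => castV (L i)) d) := by
  rw [comb_apply, fam_apply]
  refine Finset.sum_congr rfl fun i _ => Finset.sum_congr rfl fun j _ => ?_
  congr 2
  rw [fam_apply]
  simp only [gramPoly, Matrix.of_apply, map_sum, map_mul, MvPolynomial.aeval_C]
  rfl

/-- Gram determinant of three vectors -/
noncomputable def gdet (q : Bil N) (a b c : Fin N → ℝ) : ℝ := (gram q ![a, b, c]).det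

theorem gdet_eq (q : Bil N) (a b c : Fin N → ℝ) : gdet q a b c =
    q a a * q b b * q c c - q a a * q b c * q c b - q a b * q b a * q c c +
      q a b * q b c * q c a + q a c * q b a * q c b - q a c * q b b * q c a := by
  unfold gdet
  rw [Matrix.det_fin_three]
  simp only [gram, Matrix.of_apply, Matrix.cons_val_zero, Matrix.cons_val_one, Matrix.cons_val]

theorem continuous_gdet (M : Matrix (Fin N) (Fin N) (MvPolynomial (Fin k) ℚ)) {X : Type*}
    [TopologicalSpace X] {t : X → Fin k → ℝ} {a b c : X → Fin N → ℝ} (ht : Continuous t)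
    (ha : Continuous a) (hb : Continuous b) (hc : Continuous c) :
    Continuous fun x => gdet (fam M (t x)) (a x) (b x) (c x) := by
  simp only [gdet_eq]
  have aa := continuous_fam M ht ha ha
  have ab := continuous_fam M ht ha hb
  have ac := continuous_fam M ht ha hc
  have ba := continuous_fam M ht hb ha
  have bb := continuous_fam M ht hb hb
  have bc := continuous_fam M ht hb hc
  have ca := continuous_fam M ht hc ha
  have cb := continuous_fam M ht hc hb
  have cc := continuous_fam M ht hc hc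
  exact ((((((aa.mul bb).mul cc).sub ((aa.mul bc).mul cb)).sub ((ab.mul ba).mul cc)).add
    ((ab.mul bc).mul ca)).add ((ac.mul ba).mul cb)).sub ((ac.mul bb).mul ca)

/-- an open set of `(t, v)` on which the form of `t` is nondegenerate and indefinite on the span of
`v` and of two fixed vectors -/
theorem eventually_frame (M : Matrix (Fin N) (Fin N) (MvPolynomial (Fin k) ℚ)) {t₀ : Fin k → ℝ}
    {v₀ w₁ w₂ : Fin N → ℝ} {α β : ℝ} (h1 : gdet (fam M t₀) v₀ w₁ w₂ ≠ 0)
    (h2 : 0 < fam M t₀ (α • v₀ + w₂) (α • v₀ + w₂))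
    (h3 : fam M t₀ (β • v₀ + w₂) (β • v₀ + w₂) < 0) :
    ∀ᶠ p : (Fin k → ℝ) × (Fin N → ℝ) in 𝓝 (t₀, v₀), gdet (fam M p.1) p.2 w₁ w₂ ≠ 0 ∧
      0 < fam M p.1 (α • p.2 + w₂) (α • p.2 + w₂) ∧
      fam M p.1 (β • p.2 + w₂) (β • p.2 + w₂) < 0 := by
  have c1 : Continuous fun p : (Fin k → ℝ) × (Fin N → ℝ) => gdet (fam M p.1) p.2 w₁ w₂ :=
    continuous_gdet M continuous_fst continuous_snd continuous_const continuous_const
  have c2 : Continuous fun p : (Fin k → ℝ) × (Fin N → ℝ) =>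
      fam M p.1 (α • p.2 + w₂) (α • p.2 + w₂) :=
    continuous_fam M continuous_fst (by fun_prop) (by fun_prop)
  have c3 : Continuous fun p : (Fin k → ℝ) × (Fin N → ℝ) =>
      fam M p.1 (β • p.2 + w₂) (β • p.2 + w₂) :=
    continuous_fam M continuous_fst (by fun_prop) (by fun_prop)
  have o1 : IsOpen {p : (Fin k → ℝ) × (Fin N → ℝ) | gdet (fam M p.1) p.2 w₁ w₂ ≠ 0} :=
    isOpen_ne.preimage c1
  have o2 := isOpen_lt continuous_const c2 (f := fun _ => (0 : ℝ))
  have o3 := isOpen_lt c3 continuous_const (g := fun _ => (0 : ℝ))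
  exact inter_mem (o1.mem_nhds h1) (inter_mem (o2.mem_nhds h2) (o3.mem_nhds h3))

/-- nondegenerate on the span of a frame -/
theorem nondeg_of_det {q : Bil 3} {N : ℕ} {p : Bil N} (hp : ∀ u v, p u v = p v u)
    {L : Fin 3 → Fin N → ℝ} (hqp : ∀ c d, q c d = p (comb L c) (comb L d))
    (hdet : (gram p L).det ≠ 0) : ∀ z, z ≠ 0 → q z ≠ 0 := by
  intro z hz h0
  have h1 : (gram p L).mulVec z ≠ 0 := by
    intro h2
    exact hz (Matrix.eq_zero_of_mulVec_eq_zero hdet h2)
  apply h1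
  funext i
  have h2 : q z (Pi.single i 1) = 0 := by rw [h0, LinearMap.zero_apply]
  rw [hqp] at h2
  have h3 : comb L (Pi.single i 1) = L i := by
    unfold comb
    rw [Finset.sum_eq_single i]
    · simp
    · intro b _ hb
      simp [hb]
    · intro h
      exact absurd (Finset.mem_univ i) h
  rw [h3, comb_apply_left] at h2
  simp only [Matrix.mulVec, dotProduct, gram, Matrix.of_apply, Pi.zero_apply]
  rw [← h2]
  refine Finset.sum_congr rfl fun j _ => ?_
  rw [hp (L i) (L j)]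
  ring

end gram

/-- [E1] families of rational matrices whose entries are of degree at most two in each parameter -/
theorem box {N k : ℕ} (hL : ∀ P : Pen 3, P.Loc)
    (M : Matrix (Fin N) (Fin N) (MvPolynomial (Fin k) ℚ)) (hM : M.IsSymm)
    (hdeg : ∀ i j l, (M i j).degreeOf l ≤ 2) :
    IsOpen (closure {t : Fin k → ℝ | t ∈ ratV k ∧ ∃ v : Fin N → ℚ,
        QB.Good (M.map (MvPolynomial.aeval t)) (castV v)} ∩
      {t : Fin k → ℝ | ∃ v, QB.Good (M.map (MvPolynomial.aeval t)) v}) := by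
  rw [isOpen_iff_mem_nhds]
  rintro t₀ ⟨htK, v₀, hv₀, ⟨w₀, hw₀⟩, z₀, hz₀, hz₀'⟩
  have hv0 : fam M t₀ v₀ v₀ = 0 := hv₀
  have hw0 : fam M t₀ v₀ w₀ ≠ 0 := hw₀
  have hz0 : fam M t₀ v₀ z₀ = 0 := hz₀
  have hzz0 : fam M t₀ z₀ z₀ ≠ 0 := hz₀'
  have hdet0 : gdet (fam M t₀) v₀ z₀ w₀ ≠ 0 := by
    have hs := fam_symm hM t₀
    have : gdet (fam M t₀) v₀ z₀ w₀ = -(fam M t₀ z₀ z₀ * (fam M t₀ v₀ w₀) ^ 2) := by
      rw [gdet_eq, hs z₀ v₀, hs w₀ v₀, hv0, hz0]
      ring
    rw [this]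
    exact neg_ne_zero.mpr (mul_ne_zero hzz0 (pow_ne_zero 2 hw0))
  -- rational `w₁`, `w₂`
  obtain ⟨w₁, hw₁, w₂, hw₂, hdet1, hvw⟩ : ∃ w₁ ∈ ratV N, ∃ w₂ ∈ ratV N,
      gdet (fam M t₀) v₀ w₁ w₂ ≠ 0 ∧ fam M t₀ v₀ w₂ ≠ 0 := by
    have ho : IsOpen {p : (Fin N → ℝ) × (Fin N → ℝ) |
        gdet (fam M t₀) v₀ p.1 p.2 ≠ 0 ∧ fam M t₀ v₀ p.2 ≠ 0} := by
      refine IsOpen.inter ?_ ?_
      · exact isOpen_ne.preimage (continuous_gdet M continuous_const continuous_const
          continuous_fst continuous_snd)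
      · exact isOpen_ne.preimage (continuous_fam M continuous_const continuous_const
          continuous_snd)
    have hd : Dense ((ratV N : Set (Fin N → ℝ)) ×ˢ (ratV N : Set (Fin N → ℝ))) :=
      (dense_ratV N).prod (dense_ratV N)
    obtain ⟨p, hp1, hp2⟩ := hd.inter_open_nonempty _ ho ⟨(z₀, w₀), hdet0, hw0⟩
    exact ⟨p.1, hp2.1, p.2, hp2.2, hp1.1, hp1.2⟩
  -- vectors of positive and negative value
  have hval : ∀ y : ℝ, fam M t₀ (((y - fam M t₀ w₂ w₂) / (2 * fam M t₀ v₀ w₂)) • v₀ + w₂)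
      (((y - fam M t₀ w₂ w₂) / (2 * fam M t₀ v₀ w₂)) • v₀ + w₂) = y := by
    intro y
    simp only [map_add, map_smul, LinearMap.add_apply, LinearMap.smul_apply, smul_eq_mul]
    rw [fam_symm hM t₀ w₂ v₀, hv0]
    field_simp
    ring
  obtain ⟨α, hα⟩ : ∃ α : ℝ, fam M t₀ (α • v₀ + w₂) (α • v₀ + w₂) = 1 := ⟨_, hval 1⟩
  obtain ⟨β, hβ⟩ : ∃ α : ℝ, fam M t₀ (α • v₀ + w₂) (α • v₀ + w₂) = -1 := ⟨_, hval (-1)⟩
  clear hval
  -- the open conditions
  have hO := eventually_frame M hdet1 (α := α) (β := β) (by rw [hα]; norm_num)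
    (by rw [hβ]; norm_num)
  rw [nhds_prod_eq] at hO
  obtain ⟨pa, hpa, pb, hpb, hab⟩ := Filter.eventually_prod_iff.mp hO
  obtain ⟨r, hr, hball⟩ := Metric.eventually_nhds_iff.mp hpa
  -- the box
  set I : Fin k → Set ℝ := fun j => Ioo (t₀ j - r) (t₀ j + r) with hI
  have hbox : ∀ t : Fin k → ℝ, (∀ j, t j ∈ I j) → pa t := by
    intro t ht
    refine hball ?_
    rw [dist_pi_lt_iff hr]
    intro j
    rw [Real.dist_eq, abs_lt]
    have := ht j
    simp only [hI, mem_Ioo] at this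
    constructor <;> linarith [this.1, this.2]
  have hIo : ∀ j, IsOpen (I j) := fun j => isOpen_Ioo
  have ht₀I : ∀ j, t₀ j ∈ I j := fun j => ⟨by linarith, by linarith⟩
  have hboxN : {t : Fin k → ℝ | ∀ j, t j ∈ I j} ∈ 𝓝 t₀ := by
    have h1 : IsOpen {t : Fin k → ℝ | ∀ j, t j ∈ I j} := by
      have : {t : Fin k → ℝ | ∀ j, t j ∈ I j} = Set.pi univ I := by
        ext t; simp [Set.mem_pi]
      rw [this]
      exact isOpen_set_pi finite_univ fun j _ => hIo j
    exact h1.mem_nhds ht₀I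
  -- real zeros near `v₀`
  have hc : Continuous fun τ : ℝ => v₀ + τ • w₀ := by fun_prop
  have h2 : ∀ᶠ τ in 𝓝 (0 : ℝ), v₀ + τ • w₀ ∈ interior {v | pb v} :=
    hc.continuousAt.eventually (isOpen_interior.mem_nhds
      (by simpa using mem_interior_iff_mem_nhds.mpr hpb))
  obtain ⟨ε, hε, hballτ⟩ := Metric.eventually_nhds_iff.mp h2
  have hg : Continuous fun p : (Fin k → ℝ) × ℝ => fam M p.1 (v₀ + p.2 • w₀) (v₀ + p.2 • w₀) :=
    continuous_fam M continuous_fst (by fun_prop) (by fun_prop)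
  have hder : HasDerivAt (fun τ : ℝ => fam M t₀ (v₀ + τ • w₀) (v₀ + τ • w₀))
      (2 * fam M t₀ v₀ w₀) 0 := by
    have h3 : (fun τ : ℝ => fam M t₀ (v₀ + τ • w₀) (v₀ + τ • w₀)) =
        fun τ => fam M t₀ v₀ v₀ + τ * (2 * fam M t₀ v₀ w₀) + τ ^ 2 * fam M t₀ w₀ w₀ := by
      funext τ
      simp only [map_add, map_smul, LinearMap.add_apply, LinearMap.smul_apply, smul_eq_mul]
      rw [fam_symm hM t₀ w₀ v₀]
      ring
    rw [h3]
    have h4 := (((hasDerivAt_id (0 : ℝ)).mul_const (2 * fam M t₀ v₀ w₀)).const_add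
      (fam M t₀ v₀ v₀)).add (((hasDerivAt_id (0 : ℝ)).pow 2).mul_const (fam M t₀ w₀ w₀))
    refine h4.congr_deriv ?_
    simp
  have h5 := root_near (g := fun t τ => fam M t (v₀ + τ • w₀) (v₀ + τ • w₀)) hg (x₀ := t₀)
    (τ₀ := 0) (by simpa using hv0) hder (mul_ne_zero two_ne_zero hw0) hε
  obtain ⟨t₁, ⟨ht₁r, u, hu0, ⟨x, hux⟩, -⟩, ht₁I, τ, hτ, hzero⟩ :=
    ((mem_closure_iff_frequently.mp htK).and_eventually ((show ∀ᶠ t in 𝓝 t₀, ∀ j, t j ∈ I j from
      hboxN).and h5)).exists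
  have hu0' : fam M t₁ (castV u) (castV u) = 0 := hu0
  have hux' : fam M t₁ (castV u) x ≠ 0 := hux
  have hvin : v₀ + τ • w₀ ∈ interior {v | pb v} := hballτ (by rw [Real.dist_eq]; exact hτ)
  obtain ⟨v₁, hv₁b, hv₁r, hv₁⟩ : ∃ v₁, pb v₁ ∧ v₁ ∈ ratV N ∧ fam M t₁ v₁ v₁ = 0 := by
    have hR := fam_rat hM ht₁r
    rcases CubicHyp.closure_quadric (fam M t₁) hR.symm hR.rat with h6 | h6
    · have h7 : v₀ + τ • w₀ ∈ closure {v | v ∈ ratV N ∧ fam M t₁ v v = 0} := by
        rw [h6]; exact hzero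
      obtain ⟨v₁, h8, h9⟩ := mem_closure_iff.mp h7 _ isOpen_interior hvin
      exact ⟨v₁, interior_subset h8, h9.1, h9.2⟩
    · exfalso
      have h7 : castV u ∈ closure {v | v ∈ ratV N ∧ fam M t₁ v v = 0} :=
        subset_closure ⟨⟨u, rfl⟩, hu0'⟩
      rw [h6] at h7
      apply hux'
      have h8 : fam M t₁ (castV u) = 0 := h7
      rw [h8, LinearMap.zero_apply]
  -- the ternary family
  obtain ⟨a₁, rfl⟩ := hv₁r
  obtain ⟨b₁, rfl⟩ := hw₁
  obtain ⟨b₂, rfl⟩ := hw₂
  set L : Fin 3 → Fin N → ℚ := ![a₁, b₁, b₂] with hLdef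
  have hLc : (fun i => castV (L i)) = ![castV a₁, castV b₁, castV b₂] := by
    funext i
    fin_cases i <;> rfl
  have hgood : ∀ t : Fin k → ℝ, (∀ j, t j ∈ I j) → Good (fam (gramPoly M L) t) := by
    intro t ht
    obtain ⟨h6, h7, h8⟩ := hab (hbox t ht) hv₁b
    refine ⟨nondeg_of_det (fam_symm hM t) (fam_gramPoly M L t) (by rw [hLc]; exact h6), ?_, ?_⟩
    · refine ⟨![α, 0, 1], ?_⟩
      rw [fam_gramPoly]
      have h9 : comb (fun i => castV (L i)) ![α, 0, 1] = α • castV a₁ + castV b₂ := by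
        rw [hLc]
        simp [comb, Fin.sum_univ_three]
      rw [h9]
      exact h7
    · refine ⟨![β, 0, 1], ?_⟩
      rw [fam_gramPoly]
      have h9 : comb (fun i => castV (L i)) ![β, 0, 1] = β • castV a₁ + castV b₂ := by
        rw [hLc]
        simp [comb, Fin.sum_univ_three]
      rw [h9]
      exact h8
  have ht₁S : t₁ ∈ Sg (gramPoly M L) := by
    refine ⟨ht₁r, hgood t₁ ht₁I, Pi.single 0 1, CubicHyp.Quadric.single_mem 0, ?_, ?_⟩
    · intro h
      have := congrFun h 0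
      simp at this
    · rw [fam_gramPoly]
      have h9 : comb (fun i => castV (L i)) (Pi.single 0 1) = castV a₁ := by
        rw [hLc]
        simp [comb, Fin.sum_univ_three]
      rw [h9]
      exact hv₁
  -- good zeros of the ternary forms are good
  have hlift : ∀ t : Fin k → ℝ, Good (fam (gramPoly M L) t) → ∀ c : Fin 3 → ℝ, c ≠ 0 →
      fam (gramPoly M L) t c c = 0 →
      QB.Good (M.map (MvPolynomial.aeval t)) (comb (fun i => castV (L i)) c) := by
    intro t ht c hc0 hcc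
    obtain ⟨e, he⟩ := exists_pair ht hc0
    obtain ⟨z, hz, hzz⟩ := exists_tangent (fam_symm (gramPoly_symm hM L) t) ht.1 hc0 hcc
    rw [fam_gramPoly] at hcc he hz hzz
    exact ⟨hcc, ⟨_, he⟩, _, hz, hzz⟩
  refine mem_of_superset hboxN fun t ht => ⟨?_, ?_⟩
  · have h6 := box_sub hL (gramPoly_symm hM L) (gramPoly_deg hdeg L) I hIo
      (fun j => ordConnected_Ioo) hgood ht₁I ht₁S ht
    refine closure_mono ?_ h6
    rintro s ⟨hs1, hs2, z, ⟨c, rfl⟩, hz0, hzz⟩
    have h7 := hlift s hs2 (castV c) hz0 hzz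
    refine ⟨hs1, ∑ i, c i • L i, ?_⟩
    have h8 : castV (∑ i, c i • L i) = comb (fun i => castV (L i)) (castV c) := by
      funext a
      simp [castV, comb, Finset.sum_apply]
    rw [h8]
    exact h7
  · obtain ⟨z, hz0, hzz⟩ := exists_zero_of_good (fam_symm (gramPoly_symm hM L) t) (hgood t ht)
    exact ⟨_, hlift t (hgood t ht) z hz0 hzz⟩

end Pool.Agent.Lib.MP42.QT
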