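import Pool.Agent.Lib.MP_42de19_nt.QT.Slice
import Pool.Agent.Lib.MP_42de19_nt.QB.Defs
import Pool.Agent.Lib.MP_42de19_nt.Conic

set_option autoImplicit false

/-! Families of forms given by matrices of polynomials whose entries are of degree at most two in
each variable: moving in a box of good parameters. -/

namespace Pool.Agent.Lib.MP42.QT

open Topology Filter Set
open Pool.Agent.Lib.MP42.CubicHyp (castV ratV dense_ratV RatB)
open Pool.Agent.Lib.MP42.QB (bl castM bl_add_left bl_add_right bl_smul_left bl_smul_right bl_comm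
  castM_symm bl_cast)

section mat

variable {N : ℕ}

/-- bilinear form of a real matrix -/
noncomputable def toB (M : Matrix (Fin N) (Fin N) ℝ) : Bil N :=
  LinearMap.mk₂ ℝ (bl M) (fun a b c => bl_add_left M a b c) (fun a b c => bl_smul_left M a b c)
    (fun a b c => bl_add_right M a b c) (fun a b c => bl_smul_right M a b c)

theorem toB_apply (M : Matrix (Fin N) (Fin N) ℝ) (v w : Fin N → ℝ) : toB M v w = bl M v w := rfl

theorem ratB_toB {M : Matrix (Fin N) (Fin N) ℚ} (hM : M.IsSymm) : RatB (toB (castM M)) := by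
  refine ⟨fun u v => bl_comm (castM_symm hM) u v, ?_⟩
  rintro _ ⟨u, rfl⟩ _ ⟨v, rfl⟩
  exact ⟨bl M u v, bl_cast M u v⟩

/-- the pencil of three rational symmetric matrices -/
noncomputable def Pen.ofMat {A B C : Matrix (Fin N) (Fin N) ℚ} (hA : A.IsSymm) (hB : B.IsSymm)
    (hC : C.IsSymm) : Pen N :=
  ⟨toB (castM A), toB (castM B), toB (castM C), ratB_toB hA, ratB_toB hB, ratB_toB hC⟩

end mat

section fam

variable {N k : ℕ}

/-- the form of a matrix of polynomials at a real point -/
noncomputable def fam (M : Matrix (Fin N) (Fin N) (MvPolynomial (Fin k) ℚ)) (t : Fin k → ℝ) :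
    Bil N := toB (M.map (MvPolynomial.aeval t))

theorem fam_apply (M : Matrix (Fin N) (Fin N) (MvPolynomial (Fin k) ℚ)) (t : Fin k → ℝ)
    (v w : Fin N → ℝ) : fam M t v w =
      ∑ i, ∑ j, (MvPolynomial.aeval t (M i j) : ℝ) * v i * w j := rfl

theorem fam_symm {M : Matrix (Fin N) (Fin N) (MvPolynomial (Fin k) ℚ)} (hM : M.IsSymm)
    (t : Fin k → ℝ) (v w : Fin N → ℝ) : fam M t v w = fam M t w v :=
  bl_comm (hM.map _) v w

theorem fam_rat {M : Matrix (Fin N) (Fin N) (MvPolynomial (Fin k) ℚ)} (hM : M.IsSymm)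
    {t : Fin k → ℝ} (ht : t ∈ ratV k) : RatB (fam M t) := by
  refine ⟨fam_symm hM t, ?_⟩
  obtain ⟨q, rfl⟩ := ht
  rintro _ ⟨u, rfl⟩ _ ⟨v, rfl⟩
  refine ⟨∑ i, ∑ j, MvPolynomial.eval q (M i j) * u i * v j, ?_⟩
  rw [fam_apply]
  push_cast
  refine Finset.sum_congr rfl fun i _ => Finset.sum_congr rfl fun j _ => ?_
  have : (MvPolynomial.aeval (castV q) (M i j) : ℝ) = (MvPolynomial.eval q (M i j) : ℚ) :=
    aeval_ratCast _ q
  rw [this]
  rfl

theorem continuous_fam (M : Matrix (Fin N) (Fin N) (MvPolynomial (Fin k) ℚ)) {X : Type*}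
    [TopologicalSpace X] {t : X → Fin k → ℝ} {f g : X → Fin N → ℝ} (ht : Continuous t)
    (hf : Continuous f) (hg : Continuous g) : Continuous fun x => fam M (t x) (f x) (g x) := by
  simp only [fam_apply]
  refine continuous_finsetSum _ fun i _ => continuous_finsetSum _ fun j _ => ?_
  exact (((continuous_evR (M i j)).comp ht).mul ((continuous_apply i).comp hf)).mul
    ((continuous_apply j).comp hg)

/-- rational parameters with a good form and a rational zero -/
def Sg (M : Matrix (Fin N) (Fin N) (MvPolynomial (Fin k) ℚ)) : Set (Fin k → ℝ) :=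
  {t | t ∈ ratV k ∧ Good (fam M t) ∧ ∃ z ∈ ratV N, z ≠ 0 ∧ fam M t z z = 0}

/-- the slice of a family in a coordinate direction is a pencil -/
theorem exists_pen {M : Matrix (Fin N) (Fin N) (MvPolynomial (Fin k) ℚ)} (hM : M.IsSymm)
    (l : Fin k) (hdeg : ∀ i j, (M i j).degreeOf l ≤ 2) (z : Fin k → ℚ) :
    ∃ P : Pen N, ∀ s : ℝ, P.F s = fam M (Function.update (castV z) l s) := by
  have hsym : ∀ (n : ℕ), (Matrix.of fun i j => (slice (M i j) z l).coeff n :
      Matrix (Fin N) (Fin N) ℚ).IsSymm := by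
    intro n
    refine Matrix.IsSymm.ext fun i j => ?_
    simp only [Matrix.of_apply]
    rw [hM.apply i j]
  refine ⟨Pen.ofMat (hsym 2) (hsym 1) (hsym 0), fun s => ?_⟩
  refine LinearMap.ext fun u => LinearMap.ext fun v => ?_
  rw [Pen.F_apply, fam_apply]
  show s ^ 2 * bl (castM _) u v + s * bl (castM _) u v + bl (castM _) u v = _
  simp only [bl, Finset.mul_sum, ← Finset.sum_add_distrib]
  refine Finset.sum_congr rfl fun i _ => Finset.sum_congr rfl fun j _ => ?_
  have h1 : (MvPolynomial.aeval (Function.update (castV z) l s) (M i j) : ℝ) =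
      (slice (M i j) z l).coeff 2 * s ^ 2 + (slice (M i j) z l).coeff 1 * s +
        (slice (M i j) z l).coeff 0 := by
    have h2 := slice_natDegree (M i j) z l 2 (hdeg i j)
    have h3 : slice (M i j) z l = Polynomial.C ((slice (M i j) z l).coeff 2) * Polynomial.X ^ 2 +
        Polynomial.C ((slice (M i j) z l).coeff 1) * Polynomial.X +
        Polynomial.C ((slice (M i j) z l).coeff 0) :=
      Polynomial.eq_quadratic_of_degree_le_two (Polynomial.degree_le_of_natDegree_le h2)
    have h4 : (MvPolynomial.aeval (Function.update (castV z) l s) (M i j) : ℝ) =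
        Polynomial.aeval s (slice (M i j) z l) := (slice_aeval (M i j) z l s).symm
    rw [h4]
    conv_lhs => rw [h3]
    simp
  rw [h1]
  simp only [castM, Matrix.map_apply, Matrix.of_apply]
  ring

/-- Moving inside a box of good parameters. -/
theorem box_move (hL : ∀ P : Pen N, P.Loc)
    {M : Matrix (Fin N) (Fin N) (MvPolynomial (Fin k) ℚ)} (hM : M.IsSymm)
    (hdeg : ∀ i j l, (M i j).degreeOf l ≤ 2) (I : Fin k → Set ℝ) (hI : ∀ j, IsOpen (I j))
    (hIc : ∀ j, (I j).OrdConnected) (hgood : ∀ t : Fin k → ℝ, (∀ j, t j ∈ I j) → Good (fam M t))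
    {x : Fin k → ℝ} (hxI : ∀ j, x j ∈ I j) (hx : x ∈ Sg M)
    {x' : Fin k → ℝ} (hx' : ∀ j, x' j ∈ I j) {ε : ℝ} (hε : 0 < ε) :
    ∃ z ∈ Sg M, (∀ j, z j ∈ I j) ∧ ∀ j, |z j - x' j| < ε := by
  classical
  have key : ∀ s : Finset (Fin k), ∃ z ∈ Sg M, (∀ j, z j ∈ I j) ∧ ∀ j ∈ s, |z j - x' j| < ε := by
    intro s
    induction s using Finset.induction_on with
    | empty => exact ⟨x, hx, hxI, by simp⟩
    | insert l s hl ih =>
      obtain ⟨z, hz1, hz2, hz3⟩ := ih
      obtain ⟨⟨q, rfl⟩, hzg, hzi⟩ := hz1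
      obtain ⟨δ, hδ, hδ'⟩ := Metric.isOpen_iff.mp (hI l) (x' l) (hx' l)
      obtain ⟨P, hP⟩ := exists_pen hM l (fun i j => hdeg i j l) q
      have hupd : ∀ s ∈ I l, ∀ j, Function.update (castV q) l s j ∈ I j := by
        intro s hs j
        by_cases hj : j = l
        · subst hj; simpa using hs
        · simpa [hj] using hz2 j
      have hU : ∀ s ∈ I l, s ∈ P.U := by
        intro s hs
        show Good (P.F s)
        rw [hP]
        exact hgood _ (hupd s hs)
      have hSig : castV q l ∈ P.Sig := by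
        refine ⟨⟨q l, rfl⟩, hU _ (hz2 l), ?_⟩
        obtain ⟨z, hz, hz0, hzz⟩ := hzi
        refine ⟨z, hz, hz0, ?_⟩
        rw [hP, Function.update_eq_self]
        exact hzz
      have hxK : x' l ∈ P.K := by
        have h1 : uIcc (castV q l) (x' l) ⊆ I l := (hIc l).uIcc_subset (hz2 l) (hx' l)
        have h2 := Pen.Icc_sub (hL P) (a := min (castV q l) (x' l)) (b := max (castV q l) (x' l))
          (fun t ht => hU t (h1 ht)) (x := castV q l) left_mem_uIcc (subset_closure hSig)
        exact h2 right_mem_uIcc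
      obtain ⟨t, ht, htS⟩ := Metric.mem_closure_iff.mp hxK (min ε δ) (lt_min hε hδ)
      rw [dist_comm, Real.dist_eq] at htS
      have htI : t ∈ I l := hδ' (by
        rw [Metric.mem_ball, Real.dist_eq]; exact lt_of_lt_of_le htS (min_le_right _ _))
      refine ⟨Function.update (castV q) l t, ⟨?_, ?_, ?_⟩, hupd t htI, ?_⟩
      · obtain ⟨⟨r, rfl⟩, -⟩ := ht
        refine ⟨Function.update q l r, ?_⟩
        funext i
        by_cases hi : i = l
        · subst hi; simp [castV]
        · simp [castV, hi]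
      · exact hgood _ (hupd t htI)
      · obtain ⟨-, -, z, hz, hz0, hzz⟩ := ht
        exact ⟨z, hz, hz0, by rw [← hP]; exact hzz⟩
      · intro i hi
        by_cases hij : i = l
        · subst hij
          simp only [Function.update_self]
          exact lt_of_lt_of_le htS (min_le_left _ _)
        · simp only [ne_eq, hij, not_false_eq_true, Function.update_of_ne]
          rw [Finset.mem_insert] at hi
          exact hz3 i (hi.resolve_left hij)
  obtain ⟨z, h1, h2, h3⟩ := key Finset.univ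
  exact ⟨z, h1, h2, fun j => h3 j (Finset.mem_univ j)⟩

theorem box_sub (hL : ∀ P : Pen N, P.Loc)
    {M : Matrix (Fin N) (Fin N) (MvPolynomial (Fin k) ℚ)} (hM : M.IsSymm)
    (hdeg : ∀ i j l, (M i j).degreeOf l ≤ 2) (I : Fin k → Set ℝ) (hI : ∀ j, IsOpen (I j))
    (hIc : ∀ j, (I j).OrdConnected) (hgood : ∀ t : Fin k → ℝ, (∀ j, t j ∈ I j) → Good (fam M t))
    {x : Fin k → ℝ} (hxI : ∀ j, x j ∈ I j) (hx : x ∈ Sg M)
    {x' : Fin k → ℝ} (hx' : ∀ j, x' j ∈ I j) : x' ∈ closure (Sg M) := by
  rw [Metric.mem_closure_iff]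
  intro ε hε
  obtain ⟨z, hz, -, hz'⟩ := box_move hL hM hdeg I hI hIc hgood hxI hx hx' hε
  refine ⟨z, hz, ?_⟩
  rw [dist_pi_lt_iff hε]
  intro j
  rw [dist_comm, Real.dist_eq]
  exact hz' j

end fam

end Pool.Agent.Lib.MP42.QT
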