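import Pool.Agent.Lib.MP_42de19_nt.QT.Box
import Pool.Agent.Lib.MP_42de19_nt.QB.Frame

set_option autoImplicit false

/-! The local statements for ternary pencils from the statements on normal forms. -/

namespace Pool.Agent.Lib.MP42.QT

open Topology Filter Set
open Pool.Agent.Lib.MP42.CubicHyp (castV ratV dense_ratV RatB)
open Pool.Agent.Lib.MP42.QB (bl castM bl_add_left bl_add_right bl_smul_left bl_smul_right bl_comm
  castM_symm bl_cast Tern TIso DenseNear)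

/-- rational forms are given by rational matrices -/
theorem exists_mat {N : ℕ} {q : Bil N} (hq : RatB q) :
    ∃ A : Matrix (Fin N) (Fin N) ℚ, A.IsSymm ∧ ∀ u v, bl (castM A) u v = q u v := by
  have h : ∀ i j : Fin N, ∃ r : ℚ, q (Pi.single i 1) (Pi.single j 1) = r := fun i j =>
    hq.rat _ (CubicHyp.Quadric.single_mem i) _ (CubicHyp.Quadric.single_mem j)
  choose a ha using h
  refine ⟨Matrix.of a, Matrix.IsSymm.ext fun i j => ?_, fun u v => ?_⟩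
  · have h1 := hq.symm (Pi.single i 1) (Pi.single j 1)
    rw [ha, ha] at h1
    exact_mod_cast h1.symm
  · conv_rhs => rw [CubicHyp.Quadric.eq_sum u, CubicHyp.Quadric.eq_sum v]
    simp only [map_sum, LinearMap.sum_apply, map_smul, LinearMap.smul_apply, smul_eq_mul, ha, bl,
      castM, Matrix.map_apply, Matrix.of_apply, Finset.mul_sum]
    rw [Finset.sum_comm]
    refine Finset.sum_congr rfl fun j _ => Finset.sum_congr rfl fun i _ => ?_
    ring

/-- linear combination of three rational vectors -/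
def cb {N : ℕ} (e : Fin 3 → Fin N → ℚ) (x y w : ℚ) : Fin N → ℝ :=
  castV (x • e 0 + y • e 1 + w • e 2)

theorem cb_eq {N : ℕ} (e : Fin 3 → Fin N → ℚ) (x y w : ℚ) :
    cb e x y w = (x : ℝ) • castV (e 0) + (y : ℝ) • castV (e 1) + (w : ℝ) • castV (e 2) := by
  funext i
  simp [cb, castV]

/-- the ternary form of a rational form on a rational frame -/
theorem exists_tern {N : ℕ} {p : Bil N} (hp : RatB p) (e : Fin 3 → Fin N → ℚ) :
    ∃ T : Tern, ∀ x y w : ℚ, p (cb e x y w) (cb e x y w) = (T.ev x y w : ℝ) := by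
  have h : ∀ i j : Fin 3, ∃ r : ℚ, p (castV (e i)) (castV (e j)) = r := fun i j =>
    hp.rat _ ⟨e i, rfl⟩ _ ⟨e j, rfl⟩
  obtain ⟨a, ha⟩ := h 0 0
  obtain ⟨b, hb⟩ := h 0 1
  obtain ⟨c, hc⟩ := h 1 1
  obtain ⟨d, hd⟩ := h 0 2
  obtain ⟨e', he⟩ := h 1 2
  obtain ⟨f, hf⟩ := h 2 2
  refine ⟨⟨a, b, c, d, e', f⟩, fun x y w => ?_⟩
  rw [cb_eq]
  simp only [map_add, map_smul, LinearMap.add_apply, LinearMap.smul_apply, smul_eq_mul]
  rw [hp.symm (castV (e 1)) (castV (e 0)), hp.symm (castV (e 2)) (castV (e 0)),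
    hp.symm (castV (e 2)) (castV (e 1)), ha, hb, hc, hd, he, hf]
  unfold Tern.ev
  push_cast
  ring

namespace Pen

variable (P : Pen 3)

theorem E_rat {s : ℝ} (hs : ∃ r : ℚ, s = r) : RatB (P.E s) := by
  refine ⟨P.E_symm s, fun u hu v hv => ?_⟩
  obtain ⟨r, rfl⟩ := hs
  obtain ⟨a, ha⟩ := P.rA.rat u hu v hv
  obtain ⟨b, hb⟩ := P.rB.rat u hu v hv
  refine ⟨2 * r * a + b, ?_⟩
  rw [E_apply, ha, hb]
  push_cast
  ring

/-- normal form at an isotropic parameter -/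
theorem exists_normal {s : ℝ} (hs : s ∈ P.Sig) : ∃ (e : Fin 3 → Fin 3 → ℚ) (q : ℚ) (A B : Tern),
    q ≠ 0 ∧ (∀ x y w : ℚ, P.F s (cb e x y w) (cb e x y w) = (q : ℝ) * (y ^ 2 - x * w)) ∧
    (∀ x y w : ℚ, P.A (cb e x y w) (cb e x y w) = (A.ev x y w : ℝ)) ∧
    (∀ x y w : ℚ, P.E s (cb e x y w) (cb e x y w) = (B.ev x y w : ℝ)) := by
  obtain ⟨hr, hg, z, ⟨c, rfl⟩, hz0, hzz⟩ := hs
  obtain ⟨M, hM, hMq⟩ := exists_mat (P.F_rat hr)
  obtain ⟨w, hw⟩ := exists_pair hg hz0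
  obtain ⟨t, ht, htt⟩ := exists_tangent (P.F_symm s) hg.1 hz0 hzz
  obtain ⟨e, q, hq, hF⟩ := QB.exists_frame (A := M) hM (v₀ := c) ⟨by rw [hMq]; exact hzz,
    ⟨w, by rw [hMq]; exact hw⟩, t, by rw [hMq]; exact ht, by rw [hMq]; exact htt⟩
  obtain ⟨A, hA⟩ := exists_tern P.rA e
  obtain ⟨B, hB⟩ := exists_tern (P.E_rat hr) e
  refine ⟨e, q, A, B, hq, fun x y w => ?_, hA, hB⟩
  rw [← hMq, cb, bl_cast, hF]
  push_cast
  ring

/-- the frame of a normal form is independent -/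
theorem cb_ne_zero {s : ℝ} {e : Fin 3 → Fin 3 → ℚ} {q : ℚ} (hq : q ≠ 0)
    (hF : ∀ x y w : ℚ, P.F s (cb e x y w) (cb e x y w) = (q : ℝ) * (y ^ 2 - x * w))
    {x y w : ℚ} (h : ¬ (x = 0 ∧ y = 0 ∧ w = 0)) : cb e x y w ≠ 0 := by
  intro h0
  apply h
  have hq' : (q : ℝ) ≠ 0 := by exact_mod_cast hq
  have key : ∀ x' y' w' : ℚ, (y + y') ^ 2 - (x + x') * (w + w') = y' ^ 2 - x' * w' := by
    intro x' y' w'
    have h1 : cb e (x + x') (y + y') (w + w') = cb e x' y' w' := by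
      rw [cb_eq] at h0 ⊢
      rw [cb_eq]
      push_cast
      rw [add_smul, add_smul, add_smul]
      have : (x : ℝ) • castV (e 0) + (x' : ℝ) • castV (e 0) + ((y : ℝ) • castV (e 1) +
          (y' : ℝ) • castV (e 1)) + ((w : ℝ) • castV (e 2) + (w' : ℝ) • castV (e 2)) =
          ((x : ℝ) • castV (e 0) + (y : ℝ) • castV (e 1) + (w : ℝ) • castV (e 2)) +
          ((x' : ℝ) • castV (e 0) + (y' : ℝ) • castV (e 1) + (w' : ℝ) • castV (e 2)) := by abel
      rw [this, h0, zero_add]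
    have h2 := hF (x + x') (y + y') (w + w')
    rw [h1, hF] at h2
    have h3 := mul_left_cancel₀ hq' h2
    exact_mod_cast h3.symm
  have k0 := key 0 0 0
  have k1 := key 1 0 0
  have k2 := key 0 1 0
  have k3 := key 0 0 1
  refine ⟨?_, ?_, ?_⟩ <;> linarith

/-- zeros of the ternary forms give isotropic parameters -/
theorem zero_of_TIso {s : ℝ} {e : Fin 3 → Fin 3 → ℚ} {q : ℚ} {A B : Tern}
    (hq : q ≠ 0)
    (hF : ∀ x y w : ℚ, P.F s (cb e x y w) (cb e x y w) = (q : ℝ) * (y ^ 2 - x * w))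
    (hA : ∀ x y w : ℚ, P.A (cb e x y w) (cb e x y w) = (A.ev x y w : ℝ))
    (hB : ∀ x y w : ℚ, P.E s (cb e x y w) (cb e x y w) = (B.ev x y w : ℝ)) {h : ℚ}
    (hT : TIso A B q h) : ∃ z ∈ ratV 3, z ≠ 0 ∧ P.F (s + h) z z = 0 := by
  obtain ⟨x, y, w, hne, h0⟩ := hT
  refine ⟨cb e x y w, ⟨_, rfl⟩, P.cb_ne_zero hq hF hne, ?_⟩
  rw [F_add, hF, hA, hB]
  have h1 : ((h ^ 2 * A.ev x y w + h * B.ev x y w + q * (y ^ 2 - x * w) : ℚ) : ℝ) = 0 := by
    rw [h0]; simp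
  push_cast at h1
  linear_combination h1

/-- a nondegenerate isotropic form is indefinite -/
theorem good_of_zero {q : Bil 3} (hq : ∀ u v, q u v = q v u) (h : ∀ z, z ≠ 0 → q z ≠ 0)
    {z : Fin 3 → ℝ} (hz0 : z ≠ 0) (hz : q z z = 0) : Good q := by
  obtain ⟨w, hw⟩ : ∃ w, q z w ≠ 0 := by
    by_contra hcon
    push Not at hcon
    exact h z hz0 (LinearMap.ext fun w => by rw [hcon, LinearMap.zero_apply])
  have hval : ∀ y : ℝ, q (((y - q w w) / (2 * q z w)) • z + w)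
      (((y - q w w) / (2 * q z w)) • z + w) = y := by
    intro y
    simp only [map_add, map_smul, LinearMap.add_apply, LinearMap.smul_apply, smul_eq_mul]
    rw [hq w z, hz]
    field_simp
    ring
  exact ⟨h, ⟨_, lt_of_lt_of_eq zero_lt_one (hval 1).symm⟩,
    ⟨_, lt_of_eq_of_lt (hval (-1)) (by norm_num)⟩⟩

/-- the determinant as a polynomial -/
theorem exists_det_poly : ∃ p : Polynomial ℝ, ∀ s : ℝ, p.eval s = gdet (P.F s)
    (Pi.single 0 1) (Pi.single 1 1) (Pi.single 2 1) := by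
  have h : ∀ u v : Fin 3 → ℝ, ∃ p : Polynomial ℝ, ∀ s, p.eval s = P.F s u v := by
    intro u v
    refine ⟨Polynomial.C (P.A u v) * Polynomial.X ^ 2 + Polynomial.C (P.B u v) * Polynomial.X +
      Polynomial.C (P.C u v), fun s => ?_⟩
    rw [F_apply]
    simp
    ring
  choose p hp using h
  refine ⟨p (Pi.single 0 1) (Pi.single 0 1) * p (Pi.single 1 1) (Pi.single 1 1) *
      p (Pi.single 2 1) (Pi.single 2 1) - p (Pi.single 0 1) (Pi.single 0 1) *
      p (Pi.single 1 1) (Pi.single 2 1) * p (Pi.single 2 1) (Pi.single 1 1) -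
      p (Pi.single 0 1) (Pi.single 1 1) * p (Pi.single 1 1) (Pi.single 0 1) *
      p (Pi.single 2 1) (Pi.single 2 1) + p (Pi.single 0 1) (Pi.single 1 1) *
      p (Pi.single 1 1) (Pi.single 2 1) * p (Pi.single 2 1) (Pi.single 0 1) +
      p (Pi.single 0 1) (Pi.single 2 1) * p (Pi.single 1 1) (Pi.single 0 1) *
      p (Pi.single 2 1) (Pi.single 1 1) - p (Pi.single 0 1) (Pi.single 2 1) *
      p (Pi.single 1 1) (Pi.single 1 1) * p (Pi.single 2 1) (Pi.single 0 1), fun s => ?_⟩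
  rw [gdet_eq]
  simp only [Polynomial.eval_sub, Polynomial.eval_add, Polynomial.eval_mul, hp]

theorem comb_single (c : Fin 3 → ℝ) :
    comb ![Pi.single 0 1, Pi.single 1 1, Pi.single 2 1] c = c := by
  funext i
  fin_cases i <;> simp [comb, Fin.sum_univ_three]

theorem nondeg_of_gdet {q : Bil 3} (hq : ∀ u v, q u v = q v u)
    (h : gdet q (Pi.single 0 1) (Pi.single 1 1) (Pi.single 2 1) ≠ 0) : ∀ z, z ≠ 0 → q z ≠ 0 :=
  nondeg_of_det hq (fun c d => by rw [comb_single, comb_single]) h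

theorem gdet_ne_of_nondeg {q : Bil 3} (hq : ∀ u v, q u v = q v u)
    (h : ∀ z, z ≠ 0 → q z ≠ 0) : gdet q (Pi.single 0 1) (Pi.single 1 1) (Pi.single 2 1) ≠ 0 := by
  intro h0
  obtain ⟨z, hz, hz0⟩ := Matrix.exists_mulVec_eq_zero_iff.mpr h0
  refine h z hz (CubicHyp.Quadric.lin_eq_zero fun i => ?_)
  have h1 := congrFun hz0 i
  simp only [Matrix.mulVec, dotProduct, gram, Matrix.of_apply, Pi.zero_apply] at h1
  rw [← comb_single z, comb_apply_left, ← h1]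
  refine Finset.sum_congr rfl fun j _ => ?_
  have h2 : (![Pi.single 0 1, Pi.single 1 1, Pi.single 2 1] : Fin 3 → Fin 3 → ℝ) i =
      Pi.single i 1 := by
    fin_cases i <;> rfl
  rw [h2, hq]
  ring

/-- density of isotropic parameters gives points in the interior of the closure -/
theorem nhds_of_dense {s₀ : ℝ} (hs₀ : ∃ r : ℚ, s₀ = r) {a b : ℝ}
    (hd : ∀ σ ∈ Ioo a b, ∀ ε > (0 : ℝ), ∃ σ' : ℚ, |(σ' : ℝ) - σ| < ε ∧
      ∃ z ∈ ratV 3, z ≠ 0 ∧ P.F (s₀ + σ') z z = 0) {σ : ℝ} (hσ : σ ∈ Ioo a b)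
    (hU : s₀ + σ ∈ P.U) : P.K ∈ 𝓝 (s₀ + σ) := by
  have h1 : P.U ∩ {t | t - s₀ ∈ Ioo a b} ∈ 𝓝 (s₀ + σ) := by
    refine inter_mem (P.isOpen_U.mem_nhds hU) ?_
    have hc : Continuous fun t : ℝ => t - s₀ := by fun_prop
    refine hc.continuousAt.preimage_mem_nhds ?_
    rw [add_sub_cancel_left]
    exact Ioo_mem_nhds hσ.1 hσ.2
  obtain ⟨O, hO, hOo, hsO⟩ := mem_nhds_iff.mp h1
  refine mem_of_superset (hOo.mem_nhds hsO) ?_
  intro t ht
  rw [K, Metric.mem_closure_iff]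
  intro ε hε
  obtain ⟨δ, hδ, hball⟩ := Metric.isOpen_iff.mp hOo t ht
  obtain ⟨σ', hσ', z, hz, hz0, hzz⟩ := hd (t - s₀) (hO ht).2 (min ε δ) (lt_min hε hδ)
  have h2 : |s₀ + σ' - t| < min ε δ := by
    have : s₀ + σ' - t = σ' - (t - s₀) := by ring
    rw [this]; exact hσ'
  have h3 : s₀ + σ' ∈ O := hball (by
    rw [Metric.mem_ball, Real.dist_eq]; exact lt_of_lt_of_le h2 (min_le_right _ _))
  obtain ⟨r, rfl⟩ := hs₀
  refine ⟨r + σ', ⟨⟨r + σ', by push_cast; ring⟩, (hO h3).1, z, hz, hz0, hzz⟩, ?_⟩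
  rw [dist_comm, Real.dist_eq]
  exact lt_of_lt_of_le h2 (min_le_left _ _)

end Pen

/-- `Loc` for all ternary pencils -/
theorem loc_of_tern
    (h1 : ∀ (A B : Tern) {q : ℚ}, q ≠ 0 → ∃ a b : ℝ, a < b ∧
      ∀ s ∈ Ioo a b, ∀ ε > (0 : ℝ), ∃ s' : ℚ, |(s' : ℝ) - s| < ε ∧ TIso A B q s')
    (h2 : ∀ (A B : Tern) {q : ℚ}, q ≠ 0 → (∀ u : ℚ, B.ev 1 u (u ^ 2) = 0) →
      DenseNear (TIso A B q)) (P : Pen 3) : P.Loc := by
  constructor
  · intro s hs _
    obtain ⟨e, q, A, B, hq, hF, hA, hB⟩ := P.exists_normal hs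
    obtain ⟨a, b, hab, hd⟩ := h1 A B hq
    have hd' : ∀ σ ∈ Ioo a b, ∀ ε > (0 : ℝ), ∃ σ' : ℚ, |(σ' : ℝ) - σ| < ε ∧
        ∃ z ∈ ratV 3, z ≠ 0 ∧ P.F (s + σ') z z = 0 := by
      intro σ hσ ε hε
      obtain ⟨σ', h3, h4⟩ := hd σ hσ ε hε
      exact ⟨σ', h3, P.zero_of_TIso hq hF hA hB h4⟩
    -- a nondegenerate parameter in the interval
    obtain ⟨p, hp⟩ := P.exists_det_poly
    have hp0 : p ≠ 0 := by
      rintro rfl
      have h3 := hp s
      rw [Polynomial.eval_zero] at h3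
      exact Pen.gdet_ne_of_nondeg (P.F_symm s) hs.2.1.1 h3.symm
    have hopen : IsOpen {σ : ℝ | p.eval (s + σ) ≠ 0} := by
      refine isOpen_ne.preimage ?_
      exact p.continuous.comp (continuous_const.add continuous_id)
    obtain ⟨σ, hσ, hpσ⟩ : ∃ σ ∈ Ioo a b, p.eval (s + σ) ≠ 0 := by
      by_contra hcon
      push Not at hcon
      apply hp0
      refine Polynomial.eq_zero_of_infinite_isRoot p (Set.Infinite.mono ?_
        (Ioo_infinite (show s + a < s + b by linarith)))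
      intro t ht
      have := hcon (t - s) ⟨by linarith [ht.1], by linarith [ht.2]⟩
      rw [add_sub_cancel] at this
      exact this
    obtain ⟨δ, hδ, hball⟩ := Metric.isOpen_iff.mp (hopen.inter isOpen_Ioo) σ ⟨hpσ, hσ⟩
    obtain ⟨σ', h3, z, hz, hz0, hzz⟩ := hd' σ hσ δ hδ
    obtain ⟨h4, h5⟩ := hball (show (σ' : ℝ) ∈ Metric.ball σ δ by
      rw [Metric.mem_ball, Real.dist_eq]; exact h3)
    have hU : s + σ' ∈ P.U := by
      refine Pen.good_of_zero (P.F_symm _) (Pen.nondeg_of_gdet (P.F_symm _) ?_) hz0 hzz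
      rw [← hp]; exact h4
    exact ⟨s + σ', mem_interior_iff_mem_nhds.mpr (P.nhds_of_dense hs.1 hd' h5 hU)⟩
  · intro s hs hE _
    obtain ⟨e, q, A, B, hq, hF, hA, hB⟩ := P.exists_normal hs
    obtain ⟨c, hc⟩ := hE
    have hB0 : ∀ u : ℚ, B.ev 1 u (u ^ 2) = 0 := by
      intro u
      have h3 := hB 1 u (u ^ 2)
      rw [hc, LinearMap.smul_apply, LinearMap.smul_apply, hF] at h3
      push_cast at h3
      have h4 : ((B.ev 1 u (u ^ 2) : ℚ) : ℝ) = 0 := by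
        rw [← h3]; simp
      exact_mod_cast h4
    obtain ⟨δ, hδ, hd⟩ := h2 A B hq hB0
    refine subset_closure (mem_interior_iff_mem_nhds.mpr ?_)
    have h3 := P.nhds_of_dense (s₀ := s) hs.1 (a := -δ) (b := δ) (fun σ hσ ε hε => by
      obtain ⟨σ', h4, h5⟩ := hd σ (abs_lt.mpr ⟨hσ.1, hσ.2⟩) ε hε
      exact ⟨σ', h4, P.zero_of_TIso hq hF hA hB h5⟩) (σ := 0) ⟨by linarith, hδ⟩
      (by rw [add_zero]; exact hs.2.1)
    rwa [add_zero] at h3

end Pool.Agent.Lib.MP42.QT
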