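import Pool.Agent.Lib.MP_42de19_nt.QT.Pen

set_option autoImplicit false

/-! Real quadratic forms: zeros near a given zero, openness of `Good`, forms vanishing on the zeros
of an indefinite form. -/

namespace Pool.Agent.Lib.MP42.QT

open Topology Filter Set
open Pool.Agent.Lib.MP42.CubicHyp (castV ratV dense_ratV RatB)
open Pool.Agent.Lib.MP42.Quar

/-- a simple zero persists -/
theorem root_near {X : Type*} [TopologicalSpace X] {g : X → ℝ → ℝ}
    (hg : Continuous fun p : X × ℝ => g p.1 p.2) {x₀ : X} {τ₀ d : ℝ} (h0 : g x₀ τ₀ = 0)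
    (hd : HasDerivAt (g x₀) d τ₀) (hd0 : d ≠ 0) {ε : ℝ} (hε : 0 < ε) :
    ∀ᶠ x in 𝓝 x₀, ∃ τ, |τ - τ₀| < ε ∧ g x τ = 0 := by
  have h1 : HasDerivAt (fun t => g x₀ (τ₀ + t)) d 0 := by
    have h2 : HasDerivAt (fun t : ℝ => τ₀ + t) 1 0 := by
      simpa using (hasDerivAt_id (0 : ℝ)).const_add τ₀
    have h3 : HasDerivAt (g x₀) d (τ₀ + 0) := by rwa [add_zero]
    have h4 := h3.comp (0 : ℝ) h2
    rw [mul_one] at h4
    exact h4
  obtain ⟨t₁, t₂, ht1, ht1', ht2', ht2, hneg⟩ :=
    QuarData.exists_sign_change h1 (by rw [add_zero, h0]) hd0 hε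
  have hc1 : Continuous fun x => g x (τ₀ + t₁) := hg.comp (continuous_id.prodMk continuous_const)
  have hc2 : Continuous fun x => g x (τ₀ + t₂) := hg.comp (continuous_id.prodMk continuous_const)
  have hev : ∀ᶠ x in 𝓝 x₀, g x (τ₀ + t₁) * g x (τ₀ + t₂) < 0 :=
    (hc1.mul hc2).continuousAt.eventually (gt_mem_nhds hneg)
  filter_upwards [hev] with x hx
  have hcx : Continuous (g x) := hg.comp (continuous_const.prodMk continuous_id)
  have hle : τ₀ + t₁ ≤ τ₀ + t₂ := by linarith
  have hex : ∃ τ ∈ Icc (τ₀ + t₁) (τ₀ + t₂), g x τ = 0 := by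
    rcases lt_or_ge (g x (τ₀ + t₁)) 0 with h | h
    · have h' : 0 < g x (τ₀ + t₂) := by
        by_contra hcon
        push Not at hcon
        have := mul_nonneg_of_nonpos_of_nonpos h.le hcon
        linarith
      exact intermediate_value_Icc hle hcx.continuousOn ⟨h.le, h'.le⟩
    · have h' : g x (τ₀ + t₂) < 0 := by
        by_contra hcon
        push Not at hcon
        have := mul_nonneg h hcon
        linarith
      exact intermediate_value_Icc' hle hcx.continuousOn ⟨h'.le, h⟩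
  obtain ⟨τ, ⟨hτ1, hτ2⟩, hτ⟩ := hex
  refine ⟨τ, ?_, hτ⟩
  rw [abs_lt]
  constructor <;> linarith

section forms

variable {N : ℕ}

/-- a form that vanishes on the zeros of an indefinite form is a multiple of it -/
theorem mult_of_vanish {q r : Bil N} (hq : ∀ u v, q u v = q v u) (hr : ∀ u v, r u v = r v u)
    (hpos : ∃ u, 0 < q u u) (hneg : ∃ v, q v v < 0) (h : ∀ z, q z z = 0 → r z z = 0) :
    Mult q r := by
  have key : ∀ u v, 0 < q u u → q v v < 0 → r u u * q v v = r v v * q u u := by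
    intro u v hu hv
    -- zeros of `q` on the line `u + t v`
    have hdisc : 0 < (q u v) ^ 2 - q u u * q v v := by nlinarith [sq_nonneg (q u v)]
    set w := √((q u v) ^ 2 - q u u * q v v) with hw
    have hw2 : w ^ 2 = (q u v) ^ 2 - q u u * q v v := Real.sq_sqrt hdisc.le
    have hw0 : w ≠ 0 := (Real.sqrt_pos.mpr hdisc).ne'
    have hz : ∀ e : ℝ, e ^ 2 = 1 →
        q ((q v v) • u + (e * w - q u v) • v) ((q v v) • u + (e * w - q u v) • v) = 0 := by
      intro e he
      simp only [map_add, map_smul, LinearMap.add_apply, LinearMap.smul_apply, smul_eq_mul]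
      rw [hq v u]
      have : e ^ 2 * w ^ 2 = (q u v) ^ 2 - q u u * q v v := by rw [he, one_mul, hw2]
      linear_combination (q v v) * this
    have h1 := h _ (hz 1 (by norm_num))
    have h2 := h _ (hz (-1) (by norm_num))
    simp only [map_add, map_smul, LinearMap.add_apply, LinearMap.smul_apply, smul_eq_mul] at h1 h2
    rw [hr v u] at h1 h2
    have h3 : 4 * w * (q v v * r u v - q u v * r v v) = 0 := by linear_combination h1 - h2
    have h4 : q v v * r u v = q u v * r v v := by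
      have := (mul_eq_zero.mp h3).resolve_left (mul_ne_zero four_ne_zero hw0)
      linarith
    have h5 : q v v * (r u u * q v v - r v v * q u u) = 0 := by
      linear_combination (1 / 2) * h1 + (1 / 2) * h2 + 2 * (q u v) * h4 - (r v v) * hw2
    have := (mul_eq_zero.mp h5).resolve_left hv.ne
    linarith
  obtain ⟨u₀, hu₀⟩ := hpos
  obtain ⟨v₀, hv₀⟩ := hneg
  refine ⟨r u₀ u₀ / q u₀ u₀, ?_⟩
  set c := r u₀ u₀ / q u₀ u₀ with hc
  have hcu : r u₀ u₀ = c * q u₀ u₀ := by rw [hc]; field_simp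
  have hcv : r v₀ v₀ = c * q v₀ v₀ := by
    have h1 := key u₀ v₀ hu₀ hv₀
    rw [hcu] at h1
    have h2 : q u₀ u₀ * (r v₀ v₀ - c * q v₀ v₀) = 0 := by linear_combination -h1
    have := (mul_eq_zero.mp h2).resolve_left hu₀.ne'
    linarith
  have hall : ∀ z, r z z = c * q z z := by
    intro z
    rcases lt_trichotomy (q z z) 0 with hz | hz | hz
    · have h1 := key u₀ z hu₀ hz
      rw [hcu] at h1
      have h2 : q u₀ u₀ * (r z z - c * q z z) = 0 := by linear_combination -h1
      have := (mul_eq_zero.mp h2).resolve_left hu₀.ne'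
      linarith
    · rw [hz, h z hz, mul_zero]
    · have h1 := key z v₀ hz hv₀
      rw [hcv] at h1
      have h2 : q v₀ v₀ * (r z z - c * q z z) = 0 := by linear_combination h1
      have := (mul_eq_zero.mp h2).resolve_left hv₀.ne
      linarith
  refine LinearMap.ext fun x => LinearMap.ext fun y => ?_
  have h1 := hall (x + y)
  have h2 := hall x
  have h3 := hall y
  simp only [map_add, LinearMap.add_apply] at h1
  rw [hr y x, hq y x] at h1
  simp only [LinearMap.smul_apply, smul_eq_mul]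
  linarith

theorem exists_pair {q : Bil N} (h : Good q) {z : Fin N → ℝ} (hz : z ≠ 0) : ∃ w, q z w ≠ 0 := by
  by_contra hcon
  push Not at hcon
  exact h.1 z hz (LinearMap.ext fun w => by rw [hcon, LinearMap.zero_apply])

/-- an indefinite form has a nonzero zero -/
theorem exists_zero_of_good {q : Bil N} (hq : ∀ u v, q u v = q v u) (h : Good q) :
    ∃ z, z ≠ 0 ∧ q z z = 0 := by
  obtain ⟨-, ⟨u, hu⟩, ⟨v, hv⟩⟩ := h
  have hdisc : 0 < (q u v) ^ 2 - q u u * q v v := by nlinarith [sq_nonneg (q u v)]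
  set w := √((q u v) ^ 2 - q u u * q v v) with hw
  have hw2 : w ^ 2 = (q u v) ^ 2 - q u u * q v v := Real.sq_sqrt hdisc.le
  refine ⟨(q v v) • u + (w - q u v) • v, ?_, ?_⟩
  · intro h0
    have h1 : (q v v) • u = (-(w - q u v)) • v := by
      rw [neg_smul]; exact eq_neg_of_add_eq_zero_left h0
    have h2 : q ((q v v) • u) ((q v v) • u) = q ((-(w - q u v)) • v) ((-(w - q u v)) • v) := by
      rw [h1]
    simp only [map_smul, LinearMap.smul_apply, smul_eq_mul] at h2
    have h3 : 0 < q v v * (q v v * q u u) := by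
      have := mul_pos (mul_pos_of_neg_of_neg hv hv) hu
      linarith
    have h4 : -(w - q u v) * (-(w - q u v) * q v v) ≤ 0 := by
      have := mul_nonpos_of_nonneg_of_nonpos (mul_self_nonneg (w - q u v)) hv.le
      linarith
    linarith
  · simp only [map_add, map_smul, LinearMap.add_apply, LinearMap.smul_apply, smul_eq_mul]
    rw [hq v u]
    linear_combination (q v v) * hw2

/-- rational zeros are dense in the real zeros -/
theorem zero_mem_closure {q : Bil N} (hq : RatB q) (h : Good q)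
    (hz : ∃ z ∈ ratV N, z ≠ 0 ∧ q z z = 0) {v : Fin N → ℝ} (hv : q v v = 0) :
    v ∈ closure {v | v ∈ ratV N ∧ q v v = 0} := by
  rcases CubicHyp.closure_quadric q hq.symm hq.rat with h1 | h1
  · rw [h1]; exact hv
  · obtain ⟨z, hz, hz0, hzz⟩ := hz
    have : z ∈ closure {v | v ∈ ratV N ∧ q v v = 0} := subset_closure ⟨hz, hzz⟩
    rw [h1] at this
    exact absurd this (h.1 z hz0)

end forms

namespace Pen

variable {N : ℕ} (P : Pen N)

/-- joint openness of the nondegenerate condition -/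
theorem isOpen_U : IsOpen P.U := by
  have h1 : IsOpen {s : ℝ | ∃ u, 0 < P.F s u u} := by
    have : {s : ℝ | ∃ u, 0 < P.F s u u} = ⋃ u, {s : ℝ | 0 < P.F s u u} := by ext; simp
    rw [this]
    exact isOpen_iUnion fun u => isOpen_lt continuous_const
      (P.continuous_F continuous_id continuous_const continuous_const)
  have h2 : IsOpen {s : ℝ | ∃ u, P.F s u u < 0} := by
    have : {s : ℝ | ∃ u, P.F s u u < 0} = ⋃ u, {s : ℝ | P.F s u u < 0} := by ext; simp
    rw [this]
    exact isOpen_iUnion fun u => isOpen_lt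
      (P.continuous_F continuous_id continuous_const continuous_const) continuous_const
  have h3 : IsOpen {s : ℝ | ∀ z, z ≠ 0 → P.F s z ≠ 0} := by
    -- the projection of a closed subset of `ℝ × sphere` is closed
    rw [← isClosed_compl_iff]
    have h4 : {s : ℝ | ∀ z, z ≠ 0 → P.F s z ≠ 0}ᶜ =
        Prod.fst '' {p : ℝ × Metric.sphere (0 : Fin N → ℝ) 1 |
          ∀ i, P.F p.1 p.2 (Pi.single i 1) = 0} := by
      ext s
      simp only [mem_compl_iff, mem_ofPred_eq, mem_image, Prod.exists, Subtype.exists]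
      constructor
      · intro h
        push Not at h
        obtain ⟨z, hz, h0⟩ := h
        refine ⟨s, ‖z‖⁻¹ • z, ?_, ?_, rfl⟩
        · rw [mem_sphere_zero_iff_norm, norm_smul, norm_inv, norm_norm,
            inv_mul_cancel₀ (norm_ne_zero_iff.mpr hz)]
        · intro i
          simp only [map_smul, LinearMap.smul_apply]
          rw [h0, LinearMap.zero_apply, smul_zero]
      · rintro ⟨s', z, hz, h, rfl⟩ hcon
        refine hcon z ?_ (CubicHyp.Quadric.lin_eq_zero h)
        rintro rfl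
        simp at hz
    rw [h4]
    have hcl : IsClosed {p : ℝ × Metric.sphere (0 : Fin N → ℝ) 1 |
        ∀ i, P.F p.1 p.2 (Pi.single i 1) = 0} := by
      have : {p : ℝ × Metric.sphere (0 : Fin N → ℝ) 1 | ∀ i, P.F p.1 p.2 (Pi.single i 1) = 0} =
          ⋂ i, {p : ℝ × Metric.sphere (0 : Fin N → ℝ) 1 | P.F p.1 p.2 (Pi.single i 1) = 0} := by
        ext; simp
      rw [this]
      exact isClosed_iInter fun i => isClosed_eq (P.continuous_F continuous_fst
        (continuous_subtype_val.comp continuous_snd) continuous_const) continuous_const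
    exact isClosedMap_fst_of_compactSpace _ hcl
  have : P.U = {s : ℝ | ∀ z, z ≠ 0 → P.F s z ≠ 0} ∩ ({s : ℝ | ∃ u, 0 < P.F s u u} ∩
      {s : ℝ | ∃ u, P.F s u u < 0}) := by
    ext s; rfl
  rw [this]
  exact h3.inter (h1.inter h2)

theorem Sig_subset_U : P.Sig ⊆ P.U := fun _ h => h.2.1

theorem K_closed : IsClosed P.K := isClosed_closure

/-- near a zero of `F s`, `s` in the closure of the isotropic parameters, there are rational zeros
of rational forms -/
theorem near_zero {s : ℝ} (hs : s ∈ P.K) (hU : s ∈ P.U) {v : Fin N → ℝ} (hv0 : v ≠ 0)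
    (hv : P.F s v v = 0) {O : Set (ℝ × (Fin N → ℝ))} (hO : O ∈ 𝓝 (s, v)) :
    ∃ s' ∈ P.Sig, ∃ v' ∈ ratV N, P.F s' v' v' = 0 ∧ (s', v') ∈ O := by
  obtain ⟨w, hw⟩ := exists_pair hU hv0
  obtain ⟨O1, hO1, O2, hO2, hsub⟩ := mem_nhds_prod_iff.mp hO
  -- the curve `v + τ w`
  have hc : Continuous fun τ : ℝ => v + τ • w := by fun_prop
  have h2 : ∀ᶠ τ in 𝓝 (0 : ℝ), v + τ • w ∈ interior O2 :=
    hc.continuousAt.eventually (isOpen_interior.mem_nhds
      (by simpa using mem_interior_iff_mem_nhds.mpr hO2))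
  obtain ⟨ε, hε, hball⟩ := Metric.eventually_nhds_iff.mp h2
  have hg : Continuous fun p : ℝ × ℝ => P.F p.1 (v + p.2 • w) (v + p.2 • w) :=
    P.continuous_F continuous_fst (by fun_prop) (by fun_prop)
  have hder : HasDerivAt (fun τ : ℝ => P.F s (v + τ • w) (v + τ • w)) (2 * P.F s v w) 0 := by
    have h3 : (fun τ : ℝ => P.F s (v + τ • w) (v + τ • w)) =
        fun τ => P.F s v v + τ * (2 * P.F s v w) + τ ^ 2 * P.F s w w := by
      funext τ
      simp only [map_add, map_smul, LinearMap.add_apply, LinearMap.smul_apply, smul_eq_mul]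
      rw [P.F_symm s w v]
      ring
    rw [h3]
    have h4 := (((hasDerivAt_id (0 : ℝ)).mul_const (2 * P.F s v w)).const_add (P.F s v v)).add
      (((hasDerivAt_id (0 : ℝ)).pow 2).mul_const (P.F s w w))
    refine h4.congr_deriv ?_
    simp
  have h5 := root_near (g := fun s τ => P.F s (v + τ • w) (v + τ • w)) hg (x₀ := s) (τ₀ := 0)
    (by simpa using hv) hder (mul_ne_zero two_ne_zero hw) hε
  have h6 : ∃ᶠ s' in 𝓝 s, s' ∈ P.Sig := mem_closure_iff_frequently.mp hs
  obtain ⟨s', hs', hs'O, τ, hτ, h0⟩ := (h6.and_eventually ((show ∀ᶠ x in 𝓝 s, x ∈ O1 from hO1).and h5)).exists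
  have h7 : v + τ • w ∈ interior O2 := hball (by rw [Real.dist_eq]; exact hτ)
  have h8 := zero_mem_closure (P.F_rat hs'.1) hs'.2.1 hs'.2.2 h0
  obtain ⟨v', hv'1, hv'2⟩ := mem_closure_iff.mp h8 _ isOpen_interior h7
  exact ⟨s', hs', v', hv'2.1, hv'2.2, hsub ⟨hs'O, interior_subset hv'1⟩⟩

/-- near a real simple root there is a root for the nearby vectors -/
theorem near_root {s : ℝ} {v : Fin N → ℝ} (hv : P.F s v v = 0) (hE : P.E s v v ≠ 0) {O : Set ℝ}
    (hO : O ∈ 𝓝 s) : ∀ᶠ v' in 𝓝 v, ∃ s' ∈ O, P.F s' v' v' = 0 ∧ P.E s' v' v' ≠ 0 := by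
  have h0 : ∀ᶠ p in 𝓝 (s, v), P.E p.1 p.2 p.2 ≠ 0 :=
    (P.continuous_E continuous_fst continuous_snd continuous_snd).continuousAt.eventually_ne hE
  rw [nhds_prod_eq] at h0
  obtain ⟨pa, hpa, pb, hpb, hab⟩ := Filter.eventually_prod_iff.mp h0
  have hO' : O ∩ {x | pa x} ∈ 𝓝 s := inter_mem hO hpa
  obtain ⟨ε, hε, hball⟩ := Metric.mem_nhds_iff.mp hO'
  have hg : Continuous fun p : (Fin N → ℝ) × ℝ => P.F p.2 p.1 p.1 :=
    P.continuous_F continuous_snd continuous_fst continuous_fst
  have hder : HasDerivAt (fun τ : ℝ => P.F τ v v) (P.E s v v) s := by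
    have h3 : (fun τ : ℝ => P.F τ v v) = fun τ => τ ^ 2 * P.A v v + τ * P.B v v + P.C v v := by
      funext τ
      rw [F_apply]
    rw [h3, E_apply]
    have h4 := ((((hasDerivAt_id s).pow 2).mul_const (P.A v v)).add
      ((hasDerivAt_id s).mul_const (P.B v v))).add_const (P.C v v)
    refine h4.congr_deriv ?_
    simp
  have h5 := root_near (g := fun v' τ => P.F τ v' v') hg (x₀ := v) (τ₀ := s) hv hder hE hε
  filter_upwards [h5, hpb] with v' ⟨τ, hτ, h0⟩ hb
  have h6 : τ ∈ O ∩ {x | pa x} := hball (by rw [Metric.mem_ball, Real.dist_eq]; exact hτ)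
  exact ⟨τ, h6.1, h0, hab h6.2 hb⟩

/-- if the discriminant of a rational vector is a square, its simple roots are rational -/
theorem rat_root {v : Fin N → ℝ} (hv : v ∈ P.D.ratX) {s : ℝ} (h : P.F s v v = 0) :
    ∃ r : ℚ, s = r := by
  obtain ⟨hvQ, r, hr, hD⟩ := hv
  have hE2 := P.D_F_of_zero h
  obtain ⟨a, ha⟩ := P.rA.rat v hvQ v hvQ
  obtain ⟨b, hb⟩ := P.rB.rat v hvQ v hvQ
  obtain ⟨c, hc⟩ := P.rC.rat v hvQ v hvQ
  rw [hD, E_apply, ha, hb] at hE2
  rw [F_apply, ha, hb, hc] at h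
  have hr' : (r : ℝ) ≠ 0 := by exact_mod_cast hr
  by_cases ha0 : (a : ℝ) = 0
  · rw [ha0] at h hE2
    have hb0 : (b : ℝ) ≠ 0 := by
      intro hb0
      rw [hb0] at hE2
      apply hr'
      have : (r : ℝ) ^ 2 = 0 := by rw [hE2]; ring
      exact pow_eq_zero_iff two_ne_zero |>.mp this
    refine ⟨-c / b, ?_⟩
    push_cast
    field_simp
    linarith
  · have h1 : (2 * s * a + b - r) * (2 * s * a + b + r) = 0 := by linear_combination -hE2
    rcases mul_eq_zero.mp h1 with h2 | h2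
    · refine ⟨(r - b) / (2 * a), ?_⟩
      push_cast
      field_simp
      linarith
    · refine ⟨(-r - b) / (2 * a), ?_⟩
      push_cast
      field_simp
      linarith

/-- zeros over `K` are in the closure of the vectors with square discriminant -/
theorem mem_DK {s : ℝ} (hs : s ∈ P.K) (hU : s ∈ P.U) {v : Fin N → ℝ} (hv : P.F s v v = 0)
    (hE : P.E s v v ≠ 0) : v ∈ P.D.K := by
  have hv0 : v ≠ 0 := by
    rintro rfl
    simp at hE
  rw [QuarData.K, mem_closure_iff_nhds]
  intro t ht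
  have h1 : {p : ℝ × (Fin N → ℝ) | P.E p.1 p.2 p.2 ≠ 0 ∧ p.2 ∈ t} ∈ 𝓝 (s, v) := by
    refine inter_mem ?_ ?_
    · exact (P.continuous_E continuous_fst continuous_snd
        continuous_snd).continuousAt.eventually_ne hE
    · exact continuous_snd.continuousAt.preimage_mem_nhds ht
  obtain ⟨s', hs', v', hv', h0, hE', hv't⟩ := P.near_zero hs hU hv0 hv h1
  obtain ⟨r, rfl⟩ := hs'.1
  refine ⟨v', hv't, hv', ?_⟩
  obtain ⟨a, ha⟩ := P.rA.rat v' hv' v' hv'
  obtain ⟨b, hb⟩ := P.rB.rat v' hv' v' hv'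
  refine ⟨2 * r * a + b, ?_, ?_⟩
  · intro h
    apply hE'
    show P.E (r : ℝ) v' v' = 0
    rw [E_apply, ha, hb]
    exact_mod_cast h
  · rw [P.D_F_of_zero h0, E_apply, ha, hb]
    push_cast
    ring

/-- roots of the vectors in the closure are in `K` -/
theorem mem_K_of_DK {s : ℝ} (hU : s ∈ P.U) {v : Fin N → ℝ} (hvK : v ∈ P.D.K)
    (hv : P.F s v v = 0) (hE : P.E s v v ≠ 0) : s ∈ P.K := by
  rw [K, mem_closure_iff_nhds]
  intro t ht
  have h1 := P.near_root hv hE (inter_mem ht (P.isOpen_U.mem_nhds hU))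
  have h2 : ∃ᶠ v' in 𝓝 v, v' ∈ P.D.ratX := mem_closure_iff_frequently.mp hvK
  obtain ⟨v', hv', s', ⟨hs't, hs'U⟩, h0, hE'⟩ := (h2.and_eventually h1).exists
  refine ⟨s', hs't, P.rat_root hv' h0, hs'U, v', hv'.1, ?_, h0⟩
  rintro rfl
  simp at hE'

end Pen

end Pool.Agent.Lib.MP42.QT
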