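import Pool.Agent.Lib.MP_42de19_nt.Quar.OpenB
import Pool.Agent.Lib.MP_42de19_nt.Quar.Arc
import Pool.Agent.Lib.MP_42de19_nt.Quar.Coord
import Pool.Agent.Lib.MP_42de19_nt.CubicHyp.QuadDefs
import Pool.Agent.Lib.MP_42de19_nt.CubicHyp.Quadric

set_option autoImplicit false

/-! Quadratic families `F_s = s² A + s B + C` of rational quadratic forms: definitions, the
quartic form `B² - 4 A C`. -/

namespace Pool.Agent.Lib.MP42.QT

open Topology Filter Set
open Pool.Agent.Lib.MP42.CubicHyp (castV ratV dense_ratV RatB)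
open Pool.Agent.Lib.MP42.Quar

/-- bilinear forms on `ℝ^N` -/
abbrev Bil (N : ℕ) : Type := (Fin N → ℝ) →ₗ[ℝ] (Fin N → ℝ) →ₗ[ℝ] ℝ

/-- three rational symmetric bilinear forms -/
structure Pen (N : ℕ) where
  A : Bil N
  B : Bil N
  C : Bil N
  rA : RatB A
  rB : RatB B
  rC : RatB C

/-- nondegenerate and indefinite -/
def Good {N : ℕ} (q : Bil N) : Prop :=
  (∀ z, z ≠ 0 → q z ≠ 0) ∧ (∃ u, 0 < q u u) ∧ ∃ v, q v v < 0

/-- `r` is a real multiple of `q` -/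
def Mult {N : ℕ} (q r : Bil N) : Prop := ∃ c : ℝ, r = c • q

namespace Pen

variable {N : ℕ} (P : Pen N)

/-- the form at `s` -/
noncomputable def F (s : ℝ) : Bil N := s ^ 2 • P.A + s • P.B + P.C

/-- its derivative with respect to `s` -/
noncomputable def E (s : ℝ) : Bil N := (2 * s) • P.A + P.B

/-- the real parameters with a good form -/
def U : Set ℝ := {s | Good (P.F s)}

/-- the rational parameters with a good form that has a rational zero -/
def Sig : Set ℝ := {s | (∃ r : ℚ, s = r) ∧ Good (P.F s) ∧ ∃ z ∈ ratV N, z ≠ 0 ∧ P.F s z z = 0}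

/-- the closure -/
def K : Set ℝ := closure P.Sig

theorem F_apply (s : ℝ) (u v : Fin N → ℝ) :
    P.F s u v = s ^ 2 * P.A u v + s * P.B u v + P.C u v := by
  simp only [F, LinearMap.add_apply, LinearMap.smul_apply, smul_eq_mul]

theorem E_apply (s : ℝ) (u v : Fin N → ℝ) : P.E s u v = 2 * s * P.A u v + P.B u v := by
  simp only [E, LinearMap.add_apply, LinearMap.smul_apply, smul_eq_mul]

theorem F_symm (s : ℝ) (u v : Fin N → ℝ) : P.F s u v = P.F s v u := by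
  rw [F_apply, F_apply, P.rA.symm, P.rB.symm, P.rC.symm]

theorem F_rat {s : ℝ} (hs : ∃ r : ℚ, s = r) : RatB (P.F s) := by
  refine ⟨P.F_symm s, fun u hu v hv => ?_⟩
  obtain ⟨r, rfl⟩ := hs
  obtain ⟨a, ha⟩ := P.rA.rat u hu v hv
  obtain ⟨b, hb⟩ := P.rB.rat u hu v hv
  obtain ⟨c, hc⟩ := P.rC.rat u hu v hv
  refine ⟨r ^ 2 * a + r * b + c, ?_⟩
  rw [F_apply, ha, hb, hc]
  push_cast
  ring

/-- product of two bilinear forms, as a 4-linear form -/
noncomputable def T1 (p q : Bil N) :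
    (Fin N → ℝ) →ₗ[ℝ] (Fin N → ℝ) →ₗ[ℝ] (Fin N → ℝ) →ₗ[ℝ] (Fin N → ℝ) →ₗ[ℝ] ℝ :=
  p.compr₂ (LinearMap.toSpanSingleton ℝ (Bil N) q)

noncomputable def T2 (p q : Bil N) :
    (Fin N → ℝ) →ₗ[ℝ] (Fin N → ℝ) →ₗ[ℝ] (Fin N → ℝ) →ₗ[ℝ] (Fin N → ℝ) →ₗ[ℝ] ℝ :=
  (LinearMap.lflip (R₀ := ℝ)).toLinearMap ∘ₗ (T1 p q)

noncomputable def T3 (p q : Bil N) :
    (Fin N → ℝ) →ₗ[ℝ] (Fin N → ℝ) →ₗ[ℝ] (Fin N → ℝ) →ₗ[ℝ] (Fin N → ℝ) →ₗ[ℝ] ℝ :=
  (T2 p q).compr₂ (LinearMap.lflip (R₀ := ℝ)).toLinearMap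

theorem T1_apply (p q : Bil N) (a b c d : Fin N → ℝ) : T1 p q a b c d = p a b * q c d := by
  simp [T1, LinearMap.compr₂_apply]

theorem T2_apply (p q : Bil N) (a b c d : Fin N → ℝ) : T2 p q a b c d = p a c * q b d := by
  simp [T2, T1_apply]

theorem T3_apply (p q : Bil N) (a b c d : Fin N → ℝ) : T3 p q a b c d = p a d * q b c := by
  simp [T3, T2_apply]

/-- the 4-linear form of `B² - 4 A C` -/
noncomputable def disc4 :
    (Fin N → ℝ) →ₗ[ℝ] (Fin N → ℝ) →ₗ[ℝ] (Fin N → ℝ) →ₗ[ℝ] (Fin N → ℝ) →ₗ[ℝ] ℝ :=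
  (1 / 3 : ℝ) • (T1 P.B P.B + T2 P.B P.B + T3 P.B P.B) +
    (-(2 / 3) : ℝ) • (T1 P.A P.C + T1 P.C P.A + T2 P.A P.C + T2 P.C P.A + T3 P.A P.C +
      T3 P.C P.A)

theorem disc4_apply (a b c d : Fin N → ℝ) : P.disc4 a b c d =
    1 / 3 * (P.B a b * P.B c d + P.B a c * P.B b d + P.B a d * P.B b c) -
    2 / 3 * (P.A a b * P.C c d + P.C a b * P.A c d + P.A a c * P.C b d + P.C a c * P.A b d +
      P.A a d * P.C b c + P.C a d * P.A b c) := by
  simp only [disc4, LinearMap.smul_apply, LinearMap.add_apply, T1_apply,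
    T2_apply, T3_apply, smul_eq_mul]
  ring

/-- the discriminant -/
noncomputable def D : QuarData (Fin N → ℝ) where
  B := P.disc4
  s12 := by
    intro a b c d
    rw [disc4_apply, disc4_apply, P.rA.symm a b, P.rB.symm a b, P.rC.symm a b]
    ring
  s23 := by
    intro a b c d
    rw [disc4_apply, disc4_apply, P.rA.symm b c, P.rB.symm b c, P.rC.symm b c]
    ring
  s34 := by
    intro a b c d
    rw [disc4_apply, disc4_apply, P.rA.symm c d, P.rB.symm c d, P.rC.symm c d]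
    ring
  Q := ratV N
  smulQ := by
    rintro r _ ⟨q, rfl⟩
    exact ⟨r • q, by funext i; simp [castV]⟩
  denseQ := dense_ratV N
  ratQ := by
    intro a ha b hb c hc d hd
    obtain ⟨b1, e1⟩ := P.rB.rat a ha b hb
    obtain ⟨b2, e2⟩ := P.rB.rat c hc d hd
    obtain ⟨b3, e3⟩ := P.rB.rat a ha c hc
    obtain ⟨b4, e4⟩ := P.rB.rat b hb d hd
    obtain ⟨b5, e5⟩ := P.rB.rat a ha d hd
    obtain ⟨b6, e6⟩ := P.rB.rat b hb c hc
    obtain ⟨a1, f1⟩ := P.rA.rat a ha b hb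
    obtain ⟨a2, f2⟩ := P.rA.rat c hc d hd
    obtain ⟨a3, f3⟩ := P.rA.rat a ha c hc
    obtain ⟨a4, f4⟩ := P.rA.rat b hb d hd
    obtain ⟨a5, f5⟩ := P.rA.rat a ha d hd
    obtain ⟨a6, f6⟩ := P.rA.rat b hb c hc
    obtain ⟨c1, g1⟩ := P.rC.rat a ha b hb
    obtain ⟨c2, g2⟩ := P.rC.rat c hc d hd
    obtain ⟨c3, g3⟩ := P.rC.rat a ha c hc
    obtain ⟨c4, g4⟩ := P.rC.rat b hb d hd
    obtain ⟨c5, g5⟩ := P.rC.rat a ha d hd
    obtain ⟨c6, g6⟩ := P.rC.rat b hb c hc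
    refine ⟨1 / 3 * (b1 * b2 + b3 * b4 + b5 * b6) - 2 / 3 * (a1 * c2 + c1 * a2 + a3 * c4 +
      c3 * a4 + a5 * c6 + c5 * a6), ?_⟩
    rw [disc4_apply, e1, e2, e3, e4, e5, e6, f1, f2, f3, f4, f5, f6, g1, g2, g3, g4, g5, g6]
    push_cast
    ring

theorem D_F (v : Fin N → ℝ) : P.D.F v = P.B v v ^ 2 - 4 * P.A v v * P.C v v := by
  show P.disc4 v v v v = _
  rw [disc4_apply]
  ring

theorem D_Q : P.D.Q = ratV N := rfl

/-- at a zero of `F s` the discriminant is the square of the derivative -/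
theorem D_F_of_zero {s : ℝ} {v : Fin N → ℝ} (h : P.F s v v = 0) : P.D.F v = (P.E s v v) ^ 2 := by
  rw [F_apply] at h
  rw [D_F, E_apply]
  linear_combination (-4 * P.A v v) * h

/-- expansion in `s` -/
theorem F_add (s h : ℝ) (u v : Fin N → ℝ) :
    P.F (s + h) u v = P.F s u v + h * P.E s u v + h ^ 2 * P.A u v := by
  rw [F_apply, F_apply, E_apply]
  ring

/-! ### continuity -/

theorem continuous_bil (q : Bil N) {X : Type*} [TopologicalSpace X] {f g : X → Fin N → ℝ}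
    (hf : Continuous f) (hg : Continuous g) : Continuous fun x => q (f x) (g x) :=
  (CubicHyp.Quadric.continuous_bil q).comp (hf.prodMk hg)

theorem continuous_F {X : Type*} [TopologicalSpace X] {s : X → ℝ} {f g : X → Fin N → ℝ}
    (hs : Continuous s) (hf : Continuous f) (hg : Continuous g) :
    Continuous fun x => P.F (s x) (f x) (g x) := by
  simp only [F_apply]
  exact (((hs.pow 2).mul (continuous_bil _ hf hg)).add (hs.mul (continuous_bil _ hf hg))).add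
    (continuous_bil _ hf hg)

theorem continuous_E {X : Type*} [TopologicalSpace X] {s : X → ℝ} {f g : X → Fin N → ℝ}
    (hs : Continuous s) (hf : Continuous f) (hg : Continuous g) :
    Continuous fun x => P.E (s x) (f x) (g x) := by
  simp only [E_apply]
  exact ((continuous_const.mul hs).mul (continuous_bil _ hf hg)).add (continuous_bil _ hf hg)

end Pen

end Pool.Agent.Lib.MP42.QT
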