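import Pool.Agent.Lib.MP_42de19_nt.QT.Near

set_option autoImplicit false

/-! The slice theorem: the closure of the set of isotropic parameters is open in the set of the
parameters with a good form. -/

namespace Pool.Agent.Lib.MP42.QT

open Topology Filter Set
open Pool.Agent.Lib.MP42.CubicHyp (castV ratV dense_ratV RatB)
open Pool.Agent.Lib.MP42.Quar

namespace Pen

variable {N : ℕ} (P : Pen N)

theorem F_add' (s h : ℝ) : P.F (s + h) = P.F s + h • P.E s + h ^ 2 • P.A := by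
  refine LinearMap.ext fun u => LinearMap.ext fun v => ?_
  simp only [LinearMap.add_apply, LinearMap.smul_apply, smul_eq_mul]
  exact P.F_add s h u v

theorem E_add' (s h : ℝ) : P.E (s + h) = P.E s + (2 * h) • P.A := by
  refine LinearMap.ext fun u => LinearMap.ext fun v => ?_
  simp only [E, LinearMap.add_apply, LinearMap.smul_apply, smul_eq_mul]
  ring

theorem E_symm (s : ℝ) (u v : Fin N → ℝ) : P.E s u v = P.E s v u := by
  rw [E_apply, E_apply, P.rA.symm, P.rB.symm]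

theorem good_smul {q : Bil N} (h : Good q) {c : ℝ} (hc : 0 < c) : Good (c • q) := by
  obtain ⟨h1, ⟨u, hu⟩, ⟨v, hv⟩⟩ := h
  refine ⟨fun z hz h0 => h1 z hz ?_, ⟨u, ?_⟩, ⟨v, ?_⟩⟩
  · rw [LinearMap.smul_apply] at h0
    exact (smul_eq_zero.mp h0).resolve_left hc.ne'
  · simp only [LinearMap.smul_apply, smul_eq_mul]; positivity
  · simp only [LinearMap.smul_apply, smul_eq_mul]
    exact mul_neg_of_pos_of_neg hc hv

theorem good_ne {q : Bil N} (h : Good q) : q ≠ 0 := by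
  rintro rfl
  obtain ⟨-, ⟨u, hu⟩, -⟩ := h
  simp at hu

/-- unramified: a zero with nonzero derivative -/
theorem exists_simple {s : ℝ} (hU : s ∈ P.U) (h : ¬ Mult (P.F s) (P.E s)) :
    ∃ z, P.F s z z = 0 ∧ P.E s z z ≠ 0 := by
  by_contra hcon
  push Not at hcon
  exact h (mult_of_vanish (P.F_symm s) (P.E_symm s) hU.2.1 hU.2.2 hcon)

/-- all forms are proportional -/
theorem const_case {s : ℝ} (hs : s ∈ P.K) (hE : Mult (P.F s) (P.E s))
    (hA : Mult (P.F s) P.A) : P.K ∈ 𝓝 s := by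
  obtain ⟨c, hc⟩ := hE
  obtain ⟨a, ha⟩ := hA
  have hF : ∀ h, P.F (s + h) = (1 + c * h + a * h ^ 2) • P.F s := by
    intro h
    rw [F_add', hc, ha, smul_smul, smul_smul, add_smul, add_smul, one_smul, mul_comm h c,
      mul_comm (h ^ 2) a]
  have hpos : ∀ᶠ t in 𝓝 s, 0 < 1 + c * (t - s) + a * (t - s) ^ 2 := by
    have hcont : Continuous fun t : ℝ => 1 + c * (t - s) + a * (t - s) ^ 2 := by fun_prop
    exact hcont.continuousAt.eventually (lt_mem_nhds (by simp))
  obtain ⟨s1, hs1, hp1⟩ := ((mem_closure_iff_frequently.mp hs).and_eventually hpos).exists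
  have hF1 : P.F s1 = (1 + c * (s1 - s) + a * (s1 - s) ^ 2) • P.F s := by
    rw [← hF]; congr 1; ring
  obtain ⟨O, hO, hOo, hsO⟩ := mem_nhds_iff.mp hpos
  refine mem_of_superset (hOo.mem_nhds hsO) ?_
  intro t ht
  have h1 : t ∈ closure (O ∩ Set.range (fun r : ℚ => (r : ℝ))) :=
    (Rat.denseRange_cast (𝕜 := ℝ)).open_subset_closure_inter hOo ht
  refine closure_mono ?_ h1
  rintro _ ⟨hr, r, rfl⟩
  have hp2 : 0 < 1 + c * ((r : ℝ) - s) + a * ((r : ℝ) - s) ^ 2 := hO hr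
  have hF2 : P.F (r : ℝ) = ((1 + c * ((r : ℝ) - s) + a * ((r : ℝ) - s) ^ 2) /
      (1 + c * (s1 - s) + a * (s1 - s) ^ 2)) • P.F s1 := by
    rw [hF1, smul_smul, div_mul_cancel₀ _ hp1.ne', ← hF]
    congr 1; ring
  obtain ⟨-, hg, z, hz, hz0, hzz⟩ := hs1
  refine ⟨⟨r, rfl⟩, ?_, z, hz, hz0, ?_⟩
  · show Good (P.F (r : ℝ))
    rw [hF2]
    exact good_smul hg (div_pos hp2 hp1)
  · show P.F (r : ℝ) z z = 0
    rw [hF2, LinearMap.smul_apply, LinearMap.smul_apply, hzz, smul_zero]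

/-- near a ramified parameter the other parameters are unramified -/
theorem unram_near {s : ℝ} (hU : s ∈ P.U) (hE : Mult (P.F s) (P.E s)) (hA : ¬ Mult (P.F s) P.A) :
    ∃ δ > 0, ∀ h, h ≠ 0 → |h| < δ → ¬ Mult (P.F (s + h)) (P.E (s + h)) := by
  obtain ⟨c, hc⟩ := hE
  refine ⟨1 / (|c| + 1), by positivity, ?_⟩
  rintro h hh0 hh ⟨c', hc'⟩
  rw [F_add', E_add', hc] at hc'
  have h1 : (c' * (1 + c * h) - c) • P.F s = (2 * h - c' * h ^ 2) • P.A := by
    refine LinearMap.ext fun u => LinearMap.ext fun v => ?_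
    have h2 := congrArg (fun q : Bil N => q u v) hc'
    simp only [LinearMap.add_apply, LinearMap.smul_apply, smul_eq_mul] at h2
    simp only [LinearMap.smul_apply, smul_eq_mul]
    linear_combination -h2
  have h3 : 2 * h - c' * h ^ 2 = 0 := by
    by_contra h4
    apply hA
    refine ⟨(c' * (1 + c * h) - c) / (2 * h - c' * h ^ 2), ?_⟩
    rw [div_eq_inv_mul, ← smul_smul, h1, smul_smul, inv_mul_cancel₀ h4, one_smul]
  rw [h3, zero_smul] at h1
  have h5 : c' * (1 + c * h) - c = 0 := (smul_eq_zero.mp h1).resolve_right (good_ne hU)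
  have h6 : c' * h = 2 := by
    have : h * (2 - c' * h) = 0 := by linear_combination h3
    have := (mul_eq_zero.mp this).resolve_left hh0
    linarith
  have h7 : c * h = -2 := by
    linear_combination h * h5 - (1 + c * h) * h6
  have h8 : |c| * |h| = 2 := by rw [← abs_mul, h7]; norm_num
  have h9 : |h| * (|c| + 1) < 1 := by
    have hp : 0 < |c| + 1 := by positivity
    calc |h| * (|c| + 1) < 1 / (|c| + 1) * (|c| + 1) := mul_lt_mul_of_pos_right hh hp
      _ = 1 := by field_simp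
  have h10 := abs_nonneg h
  nlinarith

/-- if all forms are proportional at some good parameter they are at any -/
theorem not_const {s₀ s : ℝ} (hU : s ∈ P.U) (h : ¬ Mult (P.F s) (P.E s) ∨ ¬ Mult (P.F s) P.A)
    (hE : Mult (P.F s₀) (P.E s₀)) (hA : Mult (P.F s₀) P.A) : False := by
  obtain ⟨c, hc⟩ := hE
  obtain ⟨a, ha⟩ := hA
  set k := 1 + (s - s₀) * c + (s - s₀) ^ 2 * a with hk
  have hF : P.F s = k • P.F s₀ := by
    have h1 := P.F_add' s₀ (s - s₀)
    rw [add_sub_cancel] at h1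
    rw [h1, hc, ha, smul_smul, smul_smul, hk, add_smul, add_smul, one_smul]
  have hE' : P.E s = (c + 2 * (s - s₀) * a) • P.F s₀ := by
    have h1 := P.E_add' s₀ (s - s₀)
    rw [add_sub_cancel] at h1
    rw [h1, hc, ha, smul_smul, add_smul]
  have hk0 : k ≠ 0 := by
    intro h0
    rw [h0, zero_smul] at hF
    exact good_ne hU hF
  rcases h with h | h
  · apply h
    refine ⟨(c + 2 * (s - s₀) * a) / k, ?_⟩
    rw [hE', hF, smul_smul, div_mul_cancel₀ _ hk0]
  · apply h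
    refine ⟨a / k, ?_⟩
    rw [hF, smul_smul, div_mul_cancel₀ _ hk0, ← ha]

/-- the local statements to be proved for ternary forms -/
structure Loc : Prop where
  unram : ∀ s ∈ P.Sig, ¬ Mult (P.F s) (P.E s) → (interior P.K).Nonempty
  ram : ∀ s ∈ P.Sig, Mult (P.F s) (P.E s) → ¬ Mult (P.F s) P.A → s ∈ closure (interior P.K)

variable {P}

theorem hasInt (hL : P.Loc) (hne : P.Sig.Nonempty) {s : ℝ} (hU : s ∈ P.U)
    (hs : ¬ Mult (P.F s) (P.E s) ∨ ¬ Mult (P.F s) P.A) : P.D.HasInt := by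
  have hnc : ∀ s₀, Mult (P.F s₀) (P.E s₀) → ¬ Mult (P.F s₀) P.A := fun s₀ h1 h2 =>
    P.not_const hU hs h1 h2
  obtain ⟨s0, hs0⟩ := hne
  have hint : (interior P.K).Nonempty := by
    by_cases hE : Mult (P.F s0) (P.E s0)
    · exact closure_nonempty_iff.mp ⟨s0, hL.ram s0 hs0 hE (hnc _ hE)⟩
    · exact hL.unram s0 hs0 hE
  -- a rational isotropic parameter in the interior
  obtain ⟨s1, hs1J, hs1⟩ : ∃ s1 ∈ interior P.K, s1 ∈ P.Sig := by
    obtain ⟨x, hx⟩ := hint
    exact mem_closure_iff.mp (interior_subset hx : x ∈ closure P.Sig) _ isOpen_interior hx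
  have hopen : IsOpen (interior P.K ∩ P.U) := isOpen_interior.inter P.isOpen_U
  obtain ⟨s2, ⟨hs2J, hs2U⟩, hs2⟩ : ∃ s2 ∈ interior P.K ∩ P.U, ¬ Mult (P.F s2) (P.E s2) := by
    by_cases hE : Mult (P.F s1) (P.E s1)
    · obtain ⟨δ, hδ, h⟩ := P.unram_near hs1.2.1 hE (hnc _ hE)
      obtain ⟨ε, hε, hball⟩ := Metric.isOpen_iff.mp hopen s1 ⟨hs1J, hs1.2.1⟩
      have hm : 0 < min δ ε / 2 := by positivity
      have hm1 : min δ ε / 2 < δ := by have := min_le_left δ ε; linarith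
      have hm2 : min δ ε / 2 < ε := by have := min_le_right δ ε; linarith
      refine ⟨s1 + min δ ε / 2, hball ?_, h _ hm.ne' (by rwa [abs_of_pos hm])⟩
      rw [Metric.mem_ball, Real.dist_eq, add_sub_cancel_left, abs_of_pos hm]
      exact hm2
    · exact ⟨s1, ⟨hs1J, hs1.2.1⟩, hE⟩
  obtain ⟨z, hz, hEz⟩ := P.exists_simple hs2U hs2
  refine ⟨{v | ∃ s' ∈ interior P.K ∩ P.U, P.F s' v v = 0 ∧ P.E s' v v ≠ 0}, ?_,
    ⟨z, s2, ⟨hs2J, hs2U⟩, hz, hEz⟩, ?_, ?_⟩
  · rw [isOpen_iff_mem_nhds]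
    rintro v ⟨s', hs', h0, hE'⟩
    exact P.near_root h0 hE' (hopen.mem_nhds hs')
  · rintro v ⟨s', hs', h0, hE'⟩
    exact P.mem_DK (interior_subset hs'.1) hs'.2 h0 hE'
  · rintro v ⟨s', hs', h0, hE'⟩
    show 0 < P.D.F v
    rw [P.D_F_of_zero h0]
    positivity

theorem nhds_unram (hop : IsOpen (P.D.K ∩ P.D.S)) {s : ℝ} (hs : s ∈ P.K) (hU : s ∈ P.U)
    (hE : ¬ Mult (P.F s) (P.E s)) : P.K ∈ 𝓝 s := by
  obtain ⟨z, hz, hEz⟩ := P.exists_simple hU hE
  have hz0 : z ≠ 0 := by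
    rintro rfl
    simp at hEz
  obtain ⟨w, hw⟩ := exists_pair hU hz0
  have hzK := P.mem_DK hs hU hz hEz
  have hzS : z ∈ P.D.S := by
    show 0 < P.D.F z
    rw [P.D_F_of_zero hz]
    positivity
  -- nearby parameters have zeros near `z`
  have hc : Continuous fun τ : ℝ => z + τ • w := by fun_prop
  have h0 : ∀ᶠ p in 𝓝 (s, (0 : ℝ)), P.E p.1 (z + p.2 • w) (z + p.2 • w) ≠ 0 := by
    have hce : Continuous fun p : ℝ × ℝ => P.E p.1 (z + p.2 • w) (z + p.2 • w) :=
      P.continuous_E continuous_fst (by fun_prop) (by fun_prop)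
    refine hce.continuousAt.eventually_ne ?_
    simpa using hEz
  rw [nhds_prod_eq] at h0
  obtain ⟨pa, hpa, pb, hpb, hab⟩ := Filter.eventually_prod_iff.mp h0
  have h2 : ∀ᶠ τ in 𝓝 (0 : ℝ), z + τ • w ∈ P.D.K ∩ P.D.S :=
    hc.continuousAt.eventually (hop.mem_nhds (by simpa using ⟨hzK, hzS⟩))
  obtain ⟨ε, hε, hball⟩ := Metric.eventually_nhds_iff.mp (h2.and hpb)
  have hg : Continuous fun p : ℝ × ℝ => P.F p.1 (z + p.2 • w) (z + p.2 • w) :=
    P.continuous_F continuous_fst (by fun_prop) (by fun_prop)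
  have hder : HasDerivAt (fun τ : ℝ => P.F s (z + τ • w) (z + τ • w)) (2 * P.F s z w) 0 := by
    have h3 : (fun τ : ℝ => P.F s (z + τ • w) (z + τ • w)) =
        fun τ => P.F s z z + τ * (2 * P.F s z w) + τ ^ 2 * P.F s w w := by
      funext τ
      simp only [map_add, map_smul, LinearMap.add_apply, LinearMap.smul_apply, smul_eq_mul]
      rw [P.F_symm s w z]
      ring
    rw [h3]
    have h4 := (((hasDerivAt_id (0 : ℝ)).mul_const (2 * P.F s z w)).const_add (P.F s z z)).add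
      (((hasDerivAt_id (0 : ℝ)).pow 2).mul_const (P.F s w w))
    refine h4.congr_deriv ?_
    simp
  have h5 := root_near (g := fun s τ => P.F s (z + τ • w) (z + τ • w)) hg (x₀ := s) (τ₀ := 0)
    (by simpa using hz) hder (mul_ne_zero two_ne_zero hw) hε
  filter_upwards [h5, hpa, P.isOpen_U.mem_nhds hU] with t ⟨τ, hτ, ht0⟩ hpt htU
  have h6 := hball (y := τ) (by rw [Real.dist_eq]; exact hτ)
  exact P.mem_K_of_DK htU h6.1.1 ht0 (hab hpt h6.2)

/-- an interval of good unramified parameters that meets `K` is contained in `K` -/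
theorem interval_sub {a b : ℝ} (hU : ∀ t ∈ Ioo a b, P.K ∈ 𝓝 t ∨ t ∉ P.K) {x : ℝ}
    (hx : x ∈ Ioo a b) (hxK : x ∈ P.K) : Ioo a b ⊆ P.K := by
  have h1 : IsPreconnected (Ioo a b) := isPreconnected_Ioo
  have h2 : Ioo a b ⊆ interior P.K ∪ P.Kᶜ := by
    intro t ht
    rcases hU t ht with h | h
    · exact Or.inl (mem_interior_iff_mem_nhds.mpr h)
    · exact Or.inr h
  by_contra hcon
  obtain ⟨y, hy, hyK⟩ := not_subset.mp hcon
  obtain ⟨w, -, hw1, hw2⟩ := h1 _ _ isOpen_interior P.K_closed.isOpen_compl h2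
    ⟨x, hx, by
      rcases hU x hx with h | h
      · exact mem_interior_iff_mem_nhds.mpr h
      · exact absurd hxK h⟩ ⟨y, hy, hyK⟩
  exact hw2 (interior_subset hw1)

/-- the second root -/
theorem second_root {s c h : ℝ} (hc : P.E s = c • P.F s) (hch : 1 + c * h ≠ 0)
    (h1 : s + h ∈ P.K) (h2 : s + h ∈ P.U) (h3 : ¬ Mult (P.F (s + h)) (P.E (s + h)))
    (h4 : s + -h / (1 + c * h) ∈ P.U) : s + -h / (1 + c * h) ∈ P.K := by
  obtain ⟨z, hz, hEz⟩ := P.exists_simple h2 h3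
  have hzK := P.mem_DK h1 h2 hz hEz
  have hz' : P.F (s + -h / (1 + c * h)) z z = 0 := by
    have e1 := P.F_add s h z z
    have e2 := P.F_add s (-h / (1 + c * h)) z z
    rw [hz, hc] at e1
    rw [hc] at e2
    simp only [LinearMap.smul_apply, smul_eq_mul] at e1 e2
    rw [e2]
    have e3 : P.F s z z + -h / (1 + c * h) * (c * P.F s z z) +
        (-h / (1 + c * h)) ^ 2 * P.A z z =
        (P.F s z z + h * (c * P.F s z z) + h ^ 2 * P.A z z) / (1 + c * h) ^ 2 := by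
      generalize hk : 1 + c * h = k at hch ⊢
      rw [eq_div_iff (pow_ne_zero 2 hch)]
      have e4 : (P.F s z z + -h / k * (c * P.F s z z) + (-h / k) ^ 2 * P.A z z) * k ^ 2 =
          P.F s z z * k ^ 2 - h * c * P.F s z z * k + h ^ 2 * P.A z z := by
        field_simp
        ring
      rw [e4, ← hk]
      ring
    rw [e3, ← e1, zero_div]
  refine P.mem_K_of_DK h4 hzK hz' ?_
  intro h0
  have e1 := P.D_F_of_zero hz
  have e2 := P.D_F_of_zero hz'
  rw [h0, e1] at e2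
  exact hEz (pow_eq_zero_iff two_ne_zero |>.mp (by rw [e2]; ring))

theorem nhds_ram (hL : P.Loc) (hop : IsOpen (P.D.K ∩ P.D.S)) {s : ℝ} (hs : s ∈ P.K) (hU : s ∈ P.U)
    (hE : Mult (P.F s) (P.E s)) (hA : ¬ Mult (P.F s) P.A) : P.K ∈ 𝓝 s := by
  obtain ⟨δ, hδ, hunr⟩ := P.unram_near hU hE hA
  obtain ⟨ε, hε, hball⟩ := Metric.isOpen_iff.mp P.isOpen_U s hU
  set m := min δ ε with hm
  have hm0 : 0 < m := lt_min hδ hε
  have hmU : ∀ h, |h| < m → s + h ∈ P.U := by
    intro h hh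
    refine hball ?_
    rw [Metric.mem_ball, Real.dist_eq, add_sub_cancel_left]
    exact lt_of_lt_of_le hh (min_le_right _ _)
  have hmE : ∀ h, h ≠ 0 → |h| < m → ¬ Mult (P.F (s + h)) (P.E (s + h)) := fun h h0 hh =>
    hunr h h0 (lt_of_lt_of_le hh (min_le_left _ _))
  have hdich : ∀ h, h ≠ 0 → |h| < m → P.K ∈ 𝓝 (s + h) ∨ s + h ∉ P.K := by
    intro h h0 hh
    by_cases hK : s + h ∈ P.K
    · exact Or.inl (nhds_unram hop hK (hmU h hh) (hmE h h0 hh))
    · exact Or.inr hK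
  have hside : ∀ h, h ≠ 0 → |h| < m → s + h ∈ P.K →
      (0 < h → Ioo s (s + m) ⊆ P.K) ∧ (h < 0 → Ioo (s - m) s ⊆ P.K) := by
    intro h h0 hh hK
    have hab := abs_lt.mp hh
    constructor
    · intro hpos
      refine interval_sub (x := s + h) ?_ ⟨by linarith, by linarith⟩ hK
      rintro t ⟨ht1, ht2⟩
      have := hdich (t - s) (by intro h0; linarith) (by rw [abs_lt]; constructor <;> linarith)
      rwa [add_sub_cancel] at this
    · intro hneg
      refine interval_sub (x := s + h) ?_ ⟨by linarith, by linarith⟩ hK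
      rintro t ⟨ht1, ht2⟩
      have := hdich (t - s) (by intro h0; linarith) (by rw [abs_lt]; constructor <;> linarith)
      rwa [add_sub_cancel] at this
  obtain ⟨c, hc⟩ := hE
  -- small `h` for which the second root is near
  have hsmall : ∀ᶠ h in 𝓝 (0 : ℝ), |h| < m ∧ 0 < 1 + c * h ∧ |-h / (1 + c * h)| < m := by
    have h1 : ∀ᶠ h in 𝓝 (0 : ℝ), |h| < m :=
      (continuous_abs.continuousAt (x := (0 : ℝ))).eventually (gt_mem_nhds (by simpa using hm0))
    have h2 : ∀ᶠ h in 𝓝 (0 : ℝ), 0 < 1 + c * h :=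
      (by fun_prop : Continuous fun h : ℝ => 1 + c * h).continuousAt.eventually
        (lt_mem_nhds (by simp))
    have h3 : ∀ᶠ h in 𝓝 (0 : ℝ), |-h / (1 + c * h)| < m := by
      have h4 : ContinuousAt (fun h : ℝ => |-h / (1 + c * h)|) 0 := by
        refine ContinuousAt.abs ?_
        refine ContinuousAt.div (by fun_prop) (by fun_prop) (by simp)
      exact h4.eventually (gt_mem_nhds (by simpa using hm0))
    filter_upwards [h1, h2, h3] with h a b c using ⟨a, b, c⟩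
  -- a point of `K` near `s` and different from `s`
  obtain ⟨h, hh0, hK, hh1, hh2, hh3⟩ : ∃ h, h ≠ 0 ∧ s + h ∈ P.K ∧ |h| < m ∧ 0 < 1 + c * h ∧
      |-h / (1 + c * h)| < m := by
    have hacc : ∃ᶠ t in 𝓝 s, t ≠ s ∧ t ∈ P.K := by
      by_cases hsS : s ∈ P.Sig
      · have h1 := hL.ram s hsS ⟨c, hc⟩ hA
        rw [frequently_iff]
        intro V hV
        obtain ⟨V', hV'V, hV'o, hsV'⟩ := mem_nhds_iff.mp hV
        obtain ⟨y, hyV, hyK⟩ := mem_closure_iff.mp h1 V' hV'o hsV'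
        obtain ⟨t, ⟨ht1, ht2⟩, ht3⟩ := (dense_compl_singleton s).inter_open_nonempty _
          (hV'o.inter isOpen_interior) ⟨y, hyV, hyK⟩
        exact ⟨t, hV'V ht1, ht3, interior_subset ht2⟩
      · refine (mem_closure_iff_frequently.mp hs).mono ?_
        intro t ht
        refine ⟨?_, subset_closure ht⟩
        rintro rfl
        exact hsS ht
    have hev : ∀ᶠ t in 𝓝 s, |t - s| < m ∧ 0 < 1 + c * (t - s) ∧
        |-(t - s) / (1 + c * (t - s))| < m := by
      have h4 : Tendsto (fun t : ℝ => t - s) (𝓝 s) (𝓝 0) := by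
        have : Continuous fun t : ℝ => t - s := by fun_prop
        simpa using this.tendsto s
      exact h4.eventually hsmall
    obtain ⟨t, ⟨ht1, ht2⟩, ht3⟩ := (hacc.and_eventually hev).exists
    exact ⟨t - s, sub_ne_zero.mpr ht1, by rwa [add_sub_cancel], ht3⟩
  have hK' := second_root hc hh2.ne' hK (hmU h hh1) (hmE h hh0 hh1) (hmU _ hh3)
  have hboth : Ioo s (s + m) ⊆ P.K ∧ Ioo (s - m) s ⊆ P.K := by
    have hh0' : -h / (1 + c * h) ≠ 0 := div_ne_zero (neg_ne_zero.mpr hh0) hh2.ne'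
    rcases lt_or_gt_of_ne hh0 with hneg | hpos
    · exact ⟨(hside _ hh0' hh3 hK').1 (div_pos (neg_pos.mpr hneg) hh2),
        (hside h hh0 hh1 hK).2 hneg⟩
    · exact ⟨(hside h hh0 hh1 hK).1 hpos,
        (hside _ hh0' hh3 hK').2 (div_neg_of_neg_of_pos (neg_neg_of_pos hpos) hh2)⟩
  refine mem_of_superset (Ioo_mem_nhds (show s - m < s by linarith) (show s < s + m by linarith)) ?_
  intro t ht
  rcases lt_trichotomy t s with h | h | h
  · exact hboth.2 ⟨ht.1, h⟩
  · rw [h]; exact hs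
  · exact hboth.1 ⟨h, ht.2⟩

/-- [C] the slice theorem -/
theorem isOpen_K_inter_U (hL : P.Loc) : IsOpen (P.K ∩ P.U) := by
  rw [isOpen_iff_mem_nhds]
  rintro s ⟨hs, hU⟩
  refine inter_mem ?_ (P.isOpen_U.mem_nhds hU)
  have hne : P.Sig.Nonempty := closure_nonempty_iff.mp ⟨s, hs⟩
  by_cases hE : Mult (P.F s) (P.E s)
  · by_cases hA : Mult (P.F s) P.A
    · exact P.const_case hs hE hA
    · exact nhds_ram hL (P.D.isOpen_K_inter_S' (hasInt hL hne hU (Or.inr hA))) hs hU hE hA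
  · exact nhds_unram (P.D.isOpen_K_inter_S' (hasInt hL hne hU (Or.inl hE))) hs hU hE

/-- an interval of good parameters that contains an isotropic parameter is contained in the
closure -/
theorem Icc_sub (hL : P.Loc) {a b : ℝ} (hab : ∀ t ∈ Icc a b, t ∈ P.U) {x : ℝ} (hx : x ∈ Icc a b)
    (hxS : x ∈ P.K) : Icc a b ⊆ P.K := by
  have h1 : IsPreconnected (Icc a b) := isPreconnected_Icc
  have h2 : Icc a b ⊆ (P.K ∩ P.U) ∪ P.Kᶜ := by
    intro t ht
    by_cases h : t ∈ P.K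
    · exact Or.inl ⟨h, hab t ht⟩
    · exact Or.inr h
  by_contra hcon
  obtain ⟨y, hy, hyK⟩ := not_subset.mp hcon
  obtain ⟨w, -, hw1, hw2⟩ := h1 _ _ (isOpen_K_inter_U hL) P.K_closed.isOpen_compl h2
    ⟨x, hx, hxS, hab x hx⟩ ⟨y, hy, hyK⟩
  exact hw2 hw1.1

end Pen

end Pool.Agent.Lib.MP42.QT
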